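import Pool.Agent.V8H25.SP.Def

/-!
# L-functions of `GSp(2n) × GL(m)`
-/

set_option autoImplicit false

namespace Pool.Agent.V8H25.SP

open Pool.Agent.V8H32.SP
open scoped Classical

/-- a virtual representation of the dual group `GSpin(2n+1, ℂ) × GL(m, ℂ)` of `GSp(2n) × GL(m)`, given by
the multiplicities of its weights `((w₀, w), l)` -/
abbrev Rep2 (n m : ℕ) : Type := AddMonoidAlgebra ℤ ((ℤ × (Fin n → ℤ)) × (Fin m → ℤ))

/-- invariance under the Weyl group: the characters of the representations of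
`GSpin(2n+1, ℂ) × GL(m, ℂ)` have this property -/
def IsW2 {n m : ℕ} (ρ : Rep2 n m) : Prop :=
  (∀ (σ : Equiv.Perm (Fin n)) (w : ℤ × (Fin n → ℤ)) (l : Fin m → ℤ),
    ρ.coeff ((w.1, w.2 ∘ σ), l) = ρ.coeff (w, l)) ∧
  (∀ (i : Fin n) (w : ℤ × (Fin n → ℤ)) (l : Fin m → ℤ),
    ρ.coeff ((w.1, Function.update w.2 i (w.1 - w.2 i)), l) = ρ.coeff (w, l)) ∧
  ∀ (τ : Equiv.Perm (Fin m)) (w : ℤ × (Fin n → ℤ)) (l : Fin m → ℤ),
    ρ.coeff (w, l ∘ τ) = ρ.coeff (w, l)

/-- the value of a weight of `GL(m)` -/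
noncomputable def gev {m : ℕ} (b : GPar m) (p : Nat.Primes) (l : Fin m → ℤ) : ℂ :=
  ∏ j, b p j ^ l j

/-- `L_S(s, π × σ, ρ)` for representations `π` of `GSp(2n)` and `σ` of `GL(m)` with the parameters `A`
and `b` -/
noncomputable def LS2 (S : Finset Nat.Primes) {n m : ℕ} (A : Par n) (b : GPar m) (ρ : Rep2 n m)
    (s : ℂ) : ℂ :=
  ∏' p : Nat.Primes, if p ∈ S then 1 else
    ρ.coeff.prod (fun x e => (1 - A.ev p x.1 * gev b p x.2 * ((p : ℕ) : ℂ) ^ (-s)) ^ (-e))

/-- the parameters of `π` twisted by a character -/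
noncomputable def tw {n : ℕ} (A : Par n) (χ : Nat.Primes → ℂ) : Par n where
  a0 := fun p => A.a0 p * χ p
  a := A.a

/-- a character as a representation of `GSp(0) = GL(1)` -/
def chr (χ : Nat.Primes → ℂ) : Par 0 where
  a0 := χ
  a := fun _ => Fin.elim0

/-- the values at `p` of the character `ω_π^k ω_σ^l`, for the central characters of `π` and `σ` -/
noncomputable def cc {n m : ℕ} (A : Par n) (b : GPar m) (k l : ℤ) (p : Nat.Primes) : ℂ :=
  A.simv p ^ k * (∏ j, b p j) ^ l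

/-- The representation `σ` and the standard transfer of `π` to `GL(2n+1)` are in the classes `𝒢 m`,
`𝒢 (2n+1)`, the twists of `π` by the characters `ω_π^k ω_σ^l` are in `𝒮 n`, and these characters are
in `𝒮 0`. For the classes of automorphic representations all pairs `π, σ` have this property (for the
transfer: Gelbart and Jacquet for `n = 1`, Arthur in general; for `n = 0` it is trivial). -/
def Transfers2 (𝒮 : ∀ n, Set (Par n)) (𝒢 : ∀ m, Set (GPar m)) {n m : ℕ} (A : Par n) (b : GPar m) :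
    Prop :=
  b ∈ 𝒢 m ∧ A.std ∈ 𝒢 (1 + n + n) ∧ ∀ k l : ℤ, tw A (cc A b k l) ∈ 𝒮 n ∧ chr (cc A b k l) ∈ 𝒮 0

/-! ### The representation ring of `GL(m)` -/

/-- invariance under the symmetric group -/
def IsSym {m : ℕ} (f : AddMonoidAlgebra ℤ (Fin m → ℤ)) : Prop :=
  ∀ (τ : Equiv.Perm (Fin m)) (l : Fin m → ℤ), f.coeff (l ∘ τ) = f.coeff l

/-- the powers of the determinant -/
noncomputable def dt (m : ℕ) (k : ℤ) : AddMonoidAlgebra ℤ (Fin m → ℤ) :=
  AddMonoidAlgebra.single (fun _ => k) 1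

/-- the exterior powers -/
noncomputable def ee (m j : ℕ) : AddMonoidAlgebra ℤ (Fin m → ℤ) :=
  ∑ J ∈ (Finset.univ : Finset (Fin m)).powersetCard j,
    AddMonoidAlgebra.single (fun i => if i ∈ J then 1 else 0) 1

/-- the representation ring of `GL(m)` -/
def StmGL : Prop := ∀ (m : ℕ) (f : AddMonoidAlgebra ℤ (Fin m → ℤ)), IsSym f →
  ∃ (r : ℕ) (d : Fin r → ℤ) (J : Fin r → List ℕ) (e : Fin r → ℤ),
    f = ∑ k, e k • (dt m (d k) * ((J k).map (ee m)).prod)

end Pool.Agent.V8H25.SP
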