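import Pool.Agent.V8H25.SP.Cls

/-!
# The algebra of divisors: tensor products, exterior powers, induced parameters
-/

set_option autoImplicit false
set_option linter.unusedSectionVars false

namespace Pool.Agent.V8H25.SP

open Filter Topology
open Pool.Agent.V8H32.SP
open Pool.Agent.V8H25.CF (sum_add_le)

/-- The ring of divisors: the product is the tensor product. -/
abbrev D : Type := MonoidAlgebra ℤ ℂ

/-- a point -/
noncomputable def pt (z : ℂ) : D := MonoidAlgebra.single z 1

lemma pt_mul (z w : ℂ) : pt z * pt w = pt (z * w) := by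
  unfold pt
  rw [MonoidAlgebra.single_mul_single, one_mul]

lemma pt_one : pt 1 = 1 := rfl

lemma pt_prod {ι : Type*} (F : Finset ι) (f : ι → ℂ) : ∏ i ∈ F, pt (f i) = pt (∏ i ∈ F, f i) := by
  classical
  induction F using Finset.induction_on with
  | empty => simp [pt_one]
  | insert a F ha ih => rw [Finset.prod_insert ha, Finset.prod_insert ha, ih, pt_mul]

lemma pt_pow (z : ℂ) (k : ℕ) : pt z ^ k = pt (z ^ k) := by
  induction k with
  | zero => simp [pt_one]
  | succ k ih => rw [pow_succ, pow_succ, ih, pt_mul]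

/-- the total multiplicity -/
def nm1 (c : ℂ →₀ ℤ) : ℕ := c.sum fun _ m => m.natAbs

lemma nm1_sum_le {ι : Type*} (F : Finset ι) (c : ι → ℂ →₀ ℤ) :
    nm1 (∑ i ∈ F, c i) ≤ ∑ i ∈ F, nm1 (c i) := by
  classical
  induction F using Finset.induction_on with
  | empty => simp [nm1]
  | insert a F ha ih =>
    rw [Finset.sum_insert ha, Finset.sum_insert ha]
    exact (sum_add_le _ _).trans (Nat.add_le_add_left ih _)

lemma nm1_single (z : ℂ) (m : ℤ) : nm1 (Finsupp.single z m) = m.natAbs := by
  unfold nm1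
  exact Finsupp.sum_single_index rfl

lemma nm1_mul_le (x y : D) : nm1 (x * y).coeff ≤ nm1 x.coeff * nm1 y.coeff := by
  classical
  have h1 : (x * y).coeff = ∑ a ∈ x.coeff.support, ∑ b ∈ y.coeff.support,
      Finsupp.single (a * b) (x.coeff a * y.coeff b) := by
    rw [MonoidAlgebra.mul_def]
    unfold Finsupp.sum
    rw [MonoidAlgebra.coeff_sum]
    refine Finset.sum_congr rfl fun a _ => ?_
    rw [MonoidAlgebra.coeff_sum]
    rfl
  rw [h1]
  refine (nm1_sum_le _ _).trans ?_
  have h2 : nm1 x.coeff * nm1 y.coeff = ∑ a ∈ x.coeff.support, ∑ b ∈ y.coeff.support,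
      (x.coeff a).natAbs * (y.coeff b).natAbs := by
    unfold nm1 Finsupp.sum
    rw [Finset.sum_mul_sum]
  rw [h2]
  refine Finset.sum_le_sum fun a _ => (nm1_sum_le _ _).trans (Finset.sum_le_sum fun b _ => ?_)
  rw [nm1_single, Int.natAbs_mul]

/-- tame families in the ring -/
def TDD (S : Finset Nat.Primes) (c : Nat.Primes → D) : Prop := TD S (fun p => (c p).coeff)

/-- the Euler product of a family in the ring -/
noncomputable def LDD (S : Finset Nat.Primes) (c : Nat.Primes → D) (s : ℂ) : ℂ :=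
  LD S (fun p => (c p).coeff) s

lemma TDD.mul {S : Finset Nat.Primes} {c c' : Nat.Primes → D} (h : TDD S c) (h' : TDD S c') :
    TDD S (fun p => c p * c' p) := by
  classical
  obtain ⟨C, B, hC, h⟩ := h
  obtain ⟨C', B', hC', h'⟩ := h'
  refine ⟨C + C', B * B', by positivity, fun p hp => ⟨fun z hz => ?_, ?_⟩⟩
  · obtain ⟨a, ha, b, hb, rfl⟩ := Finset.mem_mul.1 (MonoidAlgebra.support_coeff_mul_subset _ _ hz)
    rw [norm_mul, Real.rpow_add (p_pos p)]
    exact mul_le_mul ((h p hp).1 a ha) ((h' p hp).1 b hb) (norm_nonneg _)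
      (Real.rpow_nonneg (p_pos p).le _)
  · exact (nm1_mul_le _ _).trans (Nat.mul_le_mul (h p hp).2 (h' p hp).2)

lemma TDD.add {S : Finset Nat.Primes} {c c' : Nat.Primes → D} (h : TDD S c) (h' : TDD S c') :
    TDD S (fun p => c p + c' p) := TD.add h h'

lemma TDD.finset_sum {ι : Type*} {S : Finset Nat.Primes} (F : Finset ι)
    {c : ι → Nat.Primes → D} (h : ∀ i ∈ F, TDD S (c i)) : TDD S (fun p => ∑ i ∈ F, c i p) := by
  have h1 := TD.finset_sum F h
  unfold TDD
  simp_rw [MonoidAlgebra.coeff_sum]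
  exact h1

lemma TDD.pt {S : Finset Nat.Primes} {f : Nat.Primes → ℂ} {C : ℝ} (hC : 0 ≤ C)
    (h : ∀ p, p ∉ S → ‖f p‖ ≤ ((p : ℕ) : ℝ) ^ C) : TDD S (fun p => SP.pt (f p)) := by
  classical
  refine ⟨C, 1, hC, fun p hp => ⟨fun z hz => ?_, ?_⟩⟩
  · have h1 : z ∈ (Finsupp.single (f p) (1 : ℤ)).support := hz
    rw [Finset.mem_singleton.1 (Finsupp.support_single_subset h1)]
    exact h p hp
  · exact (nm1_single (f p) 1).le

lemma TDD.one (S : Finset Nat.Primes) : TDD S (fun _ => 1) :=
  TDD.pt (f := fun _ => 1) le_rfl fun p _ => by simp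

lemma TDD.congr {S : Finset Nat.Primes} {c c' : Nat.Primes → D} (h : TDD S c)
    (e : ∀ p, p ∉ S → c p = c' p) : TDD S c' :=
  TD.congr h fun p hp => by rw [e p hp]

lemma TDD.list_prod {S : Finset Nat.Primes} {α : Type*} (l : List α) {c : α → Nat.Primes → D}
    (h : ∀ a ∈ l, TDD S (c a)) : TDD S (fun p => (l.map fun a => c a p).prod) := by
  induction l with
  | nil => simpa using TDD.one S
  | cons a l ih =>
    simp only [List.map_cons, List.prod_cons]
    exact (h a (by simp)).mul (ih fun b hb => h b (by simp [hb]))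

lemma LDD_congr {S : Finset Nat.Primes} {c c' : Nat.Primes → D}
    (e : ∀ p, p ∉ S → c p = c' p) (s : ℂ) : LDD S c s = LDD S c' s :=
  LD_congr (fun p hp => by rw [e p hp]) s

/-! ### The divisors of the spin representation and of the exterior powers -/

/-- the divisor of the spin representation -/
noncomputable def spD {n : ℕ} (A : Par n) (p : Nat.Primes) : D :=
  pt (A.a0 p) * ∏ i, (1 + pt (A.a p i))

/-- the divisor of the `j`-th exterior power for `GL(m)` -/
noncomputable def gext {m : ℕ} (b : GPar m) (j : ℕ) (p : Nat.Primes) : D :=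
  ∑ J ∈ (Finset.univ : Finset (Fin m)).powersetCard j, pt (∏ i ∈ J, b p i)

lemma spD_eq {n : ℕ} (A : Par n) (p : Nat.Primes) :
    spD A p = ∑ I : Finset (Fin n), pt (A.a0 p * ∏ i ∈ I, A.a p i) := by
  unfold spD
  rw [Finset.prod_one_add, Finset.mul_sum, Finset.powerset_univ]
  refine Finset.sum_congr rfl fun I _ => ?_
  rw [pt_prod, pt_mul]

lemma dv_spin {n : ℕ} (A : Par n) (p : Nat.Primes) : dv A (spin n) p = (spD A p).coeff := by
  classical
  rw [spD_eq, MonoidAlgebra.coeff_sum]
  unfold dv spin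
  rw [AddMonoidAlgebra.coeff_sum, Finsupp.mapDomain_finsetSum]
  refine Finset.sum_congr rfl fun I _ => ?_
  rw [AddMonoidAlgebra.coeff_single, Finsupp.mapDomain_single]
  unfold pt
  rw [MonoidAlgebra.coeff_single]
  congr 1
  unfold Par.ev
  simp only [zpow_one]
  congr 1
  rw [← Finset.prod_subset (Finset.subset_univ I)]
  · refine Finset.prod_congr rfl fun i hi => ?_
    rw [if_pos hi, zpow_one]
  · intro i _ hi
    rw [if_neg hi, zpow_zero]

lemma gext_gt {m : ℕ} (b : GPar m) {j : ℕ} (hj : m < j) (p : Nat.Primes) : gext b j p = 0 := by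
  unfold gext
  rw [Finset.powersetCard_eq_empty.2 (by simpa using hj), Finset.sum_empty]

lemma TDD_spD {S : Finset Nat.Primes} {n : ℕ} {A : Par n} (hA : Tame S A) : TDD S (spD A) := by
  unfold TDD
  simp_rw [← dv_spin]
  exact TD_dv hA (spin n)

lemma TDD_gext {S : Finset Nat.Primes} {m : ℕ} {b : GPar m} (hb : GTame S b) (j : ℕ) :
    TDD S (gext b j) := by
  classical
  obtain ⟨C, hC, h⟩ := hb
  have : ∀ J ∈ (Finset.univ : Finset (Fin m)).powersetCard j,
      TDD S (fun p => pt (∏ i ∈ J, b p i)) := by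
    intro J _
    refine TDD.pt (C := C * J.card) (by positivity) fun p hp => ?_
    rw [norm_prod, Real.rpow_mul (p_pos p).le, Real.rpow_natCast]
    refine (Finset.prod_le_prod (fun _ _ => norm_nonneg _) fun i _ => (h p hp i).2.1).trans ?_
    rw [Finset.prod_const]
  exact TDD.finset_sum _ this

/-- the divisor of the induced parameters -/
lemma spD_ind {n m : ℕ} (A : Par n) (b : GPar m) (u : ℝ) (p : Nat.Primes) :
    spD (A.ind b u) p = ∑ j ∈ Finset.range (m + 1),
      pt ((((p : ℕ) : ℂ) ^ (-(u : ℂ))) ^ j) * (spD A p * gext b j p) := by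
  classical
  unfold spD Par.ind
  simp only
  rw [Fin.prod_univ_add]
  simp only [Fin.append_left, Fin.append_right]
  have h1 : ∏ i : Fin m, (1 + pt (b p i * ((p : ℕ) : ℂ) ^ (-(u : ℂ)))) =
      ∑ j ∈ Finset.range (m + 1), pt ((((p : ℕ) : ℂ) ^ (-(u : ℂ))) ^ j) * gext b j p := by
    rw [Finset.prod_one_add, Finset.sum_powerset, Finset.card_univ, Fintype.card_fin]
    refine Finset.sum_congr rfl fun j _ => ?_
    unfold gext
    rw [Finset.mul_sum]
    refine Finset.sum_congr rfl fun J hJ => ?_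
    rw [pt_prod, Finset.prod_mul_distrib, Finset.prod_const, (Finset.mem_powersetCard.1 hJ).2,
      pt_mul, mul_comm]
  rw [h1, Finset.mul_sum, Finset.mul_sum]
  refine Finset.sum_congr rfl fun j _ => ?_
  ring

/-! ### The homomorphism from the representation ring -/

open Classical in
/-- The values of the weights as a monoid homomorphism. -/
noncomputable def evM {S : Finset Nat.Primes} {n : ℕ} {A : Par n} (hA : Tame S A) {p : Nat.Primes}
    (hp : p ∉ S) : Multiplicative (ℤ × (Fin n → ℤ)) →* D where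
  toFun w := pt (A.ev p w.toAdd)
  map_one' := by
    rw [toAdd_one, ← pt_one]
    congr 1
    unfold Par.ev
    simp
  map_mul' w w' := by
    rw [toAdd_mul, ev_add hA hp, pt_mul]

/-- The values of the weights as a homomorphism of rings. -/
noncomputable def evD {S : Finset Nat.Primes} {n : ℕ} {A : Par n} (hA : Tame S A) {p : Nat.Primes}
    (hp : p ∉ S) : Rep n →ₐ[ℤ] D := AddMonoidAlgebra.lift ℤ D _ (evM hA hp)

lemma evD_single {S : Finset Nat.Primes} {n : ℕ} {A : Par n} (hA : Tame S A) {p : Nat.Primes}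
    (hp : p ∉ S) (w : ℤ × (Fin n → ℤ)) (k : ℤ) :
    evD hA hp (AddMonoidAlgebra.single w k) = k • pt (A.ev p w) := by
  unfold evD
  rw [AddMonoidAlgebra.lift_apply, AddMonoidAlgebra.coeff_single, Finsupp.sum_single_index
    (by rw [zero_smul])]
  rfl

lemma evD_coeff {S : Finset Nat.Primes} {n : ℕ} {A : Par n} (hA : Tame S A) {p : Nat.Primes}
    (hp : p ∉ S) (m : Rep n) : (evD hA hp m).coeff = dv A m p := by
  induction m using AddMonoidAlgebra.induction_linear with
  | zero =>
    rw [map_zero]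
    unfold dv
    simp
  | add x y hx hy =>
    rw [map_add, dv_add, MonoidAlgebra.coeff_add, hx, hy]
  | single w k =>
    rw [evD_single]
    unfold dv pt
    rw [AddMonoidAlgebra.coeff_single, Finsupp.mapDomain_single, MonoidAlgebra.coeff_smul,
      MonoidAlgebra.coeff_single, Finsupp.smul_single]
    simp

lemma D_ext {x y : D} (h : x.coeff = y.coeff) : x = y := by
  cases x
  cases y
  simp only at h
  rw [h]

lemma evD_spin {S : Finset Nat.Primes} {n : ℕ} {A : Par n} (hA : Tame S A) {p : Nat.Primes}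
    (hp : p ∉ S) : evD hA hp (spin n) = spD A p := by
  apply D_ext
  rw [evD_coeff, dv_spin]

lemma evD_sim {S : Finset Nat.Primes} {n : ℕ} {A : Par n} (hA : Tame S A) {p : Nat.Primes}
    (hp : p ∉ S) (k : ℤ) : evD hA hp (sim n k) = pt (A.simv p ^ k) := by
  unfold sim
  rw [evD_single, one_smul]
  congr 1
  unfold Par.ev Par.simv
  rw [mul_zpow, ← Finset.prod_zpow]
  congr 1
  rw [zpow_mul]
  norm_num [zpow_ofNat]

lemma ev_zero {n : ℕ} (A : Par n) (p : Nat.Primes) : A.ev p 0 = 1 := by
  unfold Par.ev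
  simp

lemma ev_single {n : ℕ} (A : Par n) (p : Nat.Primes) (i : Fin n) (k : ℤ) :
    A.ev p (0, Pi.single i k) = A.a p i ^ k := by
  unfold Par.ev
  simp only [zpow_zero, one_mul]
  rw [Finset.prod_eq_single i]
  · rw [Pi.single_eq_same]
  · intro j _ hj
    rw [Pi.single_eq_of_ne hj, zpow_zero]
  · intro h
    exact absurd (Finset.mem_univ _) h

lemma ev_sum {S : Finset Nat.Primes} {n : ℕ} {A : Par n} (hA : Tame S A) {p : Nat.Primes}
    (hp : p ∉ S) {ι : Type*} (F : Finset ι) (f : ι → ℤ × (Fin n → ℤ)) :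
    A.ev p (∑ x ∈ F, f x) = ∏ x ∈ F, A.ev p (f x) := by
  classical
  induction F using Finset.induction_on with
  | empty => simpa using ev_zero A p
  | insert a F ha ih => rw [Finset.sum_insert ha, Finset.prod_insert ha, ev_add hA hp, ih]

/-- the numbering of the weights of the standard representation -/
def stE (n : ℕ) : (Unit ⊕ Fin n ⊕ Fin n) ≃ Fin (1 + n + n) :=
  ((Equiv.sumAssoc Unit (Fin n) (Fin n)).symm.trans
    ((Equiv.sumCongr (Equiv.sumCongr (Equiv.ofUnique Unit (Fin 1)) (Equiv.refl _))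
      (Equiv.refl _)))).trans
    ((Equiv.sumCongr finSumFinEquiv (Equiv.refl _)).trans finSumFinEquiv)

lemma std_stE {n : ℕ} (A : Par n) (p : Nat.Primes) (x : Unit ⊕ Fin n ⊕ Fin n) :
    A.std p (stE n x) = A.ev p (stw x) := by
  rcases x with x | x | x
  · simp only [stw]
    rw [show ((0, 0) : ℤ × (Fin n → ℤ)) = 0 from rfl, ev_zero]
    simp [stE, Par.std]
  · simp only [stw]
    rw [ev_single, zpow_one]
    simp [stE, Par.std]
  · simp only [stw]
    rw [← Pi.single_neg, ev_single, zpow_neg_one]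
    simp [stE, Par.std]

lemma evD_ext {S : Finset Nat.Primes} {n : ℕ} {A : Par n} (hA : Tame S A) {p : Nat.Primes}
    (hp : p ∉ S) (j : ℕ) : evD hA hp (ext n j) = gext A.std j p := by
  classical
  unfold ext gext
  rw [map_sum]
  have h1 : ∀ I ∈ (Finset.univ : Finset (Unit ⊕ Fin n ⊕ Fin n)).powersetCard j,
      evD hA hp (AddMonoidAlgebra.single (∑ x ∈ I, stw x) 1) =
        ∏ x ∈ I, pt (A.ev p (stw x)) := by
    intro I _
    rw [evD_single, one_smul, ev_sum hA hp, pt_prod]
  have h2 : ∀ J ∈ (Finset.univ : Finset (Fin (1 + n + n))).powersetCard j,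
      pt (∏ i ∈ J, A.std p i) = ∏ i ∈ J, pt (A.std p i) := fun J _ => (pt_prod _ _).symm
  rw [Finset.sum_congr rfl h1, Finset.sum_congr rfl h2]
  have h3 := Finset.esymm_map_val (fun x => pt (A.ev p (stw x)))
    (Finset.univ : Finset (Unit ⊕ Fin n ⊕ Fin n)) j
  have h4 := Finset.esymm_map_val (fun i => pt (A.std p i))
    (Finset.univ : Finset (Fin (1 + n + n))) j
  have h5 : Multiset.map (fun x => pt (A.ev p (stw x)))
      (Finset.univ : Finset (Unit ⊕ Fin n ⊕ Fin n)).val =
      Multiset.map (fun i => pt (A.std p i)) (Finset.univ : Finset (Fin (1 + n + n))).val := by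
    rw [← Multiset.map_univ_val_equiv (stE n), Multiset.map_map]
    refine Multiset.map_congr rfl fun x _ => ?_
    simp only [Function.comp]
    rw [std_stE]
  rw [h5] at h3
  exact h3.symm.trans h4

end Pool.Agent.V8H25.SP
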