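import Pool.Agent.V8H32.SP.Defs
import Pool.Agent.V8H25.CF.Prod

/-!
# Euler products of tame families of divisors over the rational primes: convergence, analyticity,
products, translates; the class of the products of spin L-functions
-/

set_option autoImplicit false
set_option linter.unusedSectionVars false

namespace Pool.Agent.V8H25.SP

open Filter Topology
open Pool.Agent.V8H32.CF (lf)
open Pool.Agent.V8H32.SP
open Pool.Agent.V8H25.CF (lg lf_add lf_smul lf_zero lf_single lf_ne_zero exp_lg norm_lg_le sum_add_le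
  sum_zsmul_le)

/-- The divisors `c p` have bounded total multiplicity and polynomially bounded points. -/
def TD (S : Finset Nat.Primes) (c : Nat.Primes → ℂ →₀ ℤ) : Prop :=
  ∃ (C : ℝ) (B : ℕ), 0 ≤ C ∧ ∀ p, p ∉ S → (∀ z ∈ (c p).support, ‖z‖ ≤ ((p : ℕ) : ℝ) ^ C) ∧
    ((c p).sum fun _ m => m.natAbs) ≤ B

open Classical in
/-- The Euler product of the factors `∏_z (1 - z p^{-s})^{-c_p(z)}`. -/
noncomputable def LD (S : Finset Nat.Primes) (c : Nat.Primes → ℂ →₀ ℤ) (s : ℂ) : ℂ :=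
  ∏' p : Nat.Primes, if p ∈ S then 1 else lf (c p) (((p : ℕ) : ℂ) ^ (-s))

open Classical in
/-- The logarithm of the Euler factor. -/
noncomputable def lp (S : Finset Nat.Primes) (c : Nat.Primes → ℂ →₀ ℤ) (s : ℂ) (p : Nat.Primes) : ℂ :=
  if p ∈ S then 0 else lg (c p) (((p : ℕ) : ℂ) ^ (-s))

/-- `C` is a bound for the exponents of the points. -/
def TB (S : Finset Nat.Primes) (c : Nat.Primes → ℂ →₀ ℤ) (C : ℝ) (B : ℕ) : Prop :=
  ∀ p, p ∉ S → (∀ z ∈ (c p).support, ‖z‖ ≤ ((p : ℕ) : ℝ) ^ C) ∧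
    ((c p).sum fun _ m => m.natAbs) ≤ B

lemma p_pos (p : Nat.Primes) : (0 : ℝ) < ((p : ℕ) : ℝ) := by exact_mod_cast p.2.pos

lemma p_two (p : Nat.Primes) : (2 : ℝ) ≤ ((p : ℕ) : ℝ) := by exact_mod_cast p.2.two_le

lemma p_ne (p : Nat.Primes) : ((p : ℕ) : ℂ) ≠ 0 := by exact_mod_cast p.2.ne_zero

lemma rpow_le_half' {p : Nat.Primes} {x : ℝ} (hx : 1 < x) : ((p : ℕ) : ℝ) ^ (-x) ≤ 1 / 2 := by
  have h2 := p_two p
  calc ((p : ℕ) : ℝ) ^ (-x) ≤ ((p : ℕ) : ℝ) ^ (-1 : ℝ) :=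
        Real.rpow_le_rpow_of_exponent_le (by linarith) (by linarith)
    _ = ((p : ℕ) : ℝ)⁻¹ := by rw [Real.rpow_neg_one]
    _ ≤ (2 : ℝ)⁻¹ := inv_anti₀ (by norm_num) h2
    _ = 1 / 2 := by norm_num

lemma norm_pt {S : Finset Nat.Primes} {c : Nat.Primes → ℂ →₀ ℤ} {C : ℝ} {B : ℕ} (h : TB S c C B)
    {p : Nat.Primes} (hp : p ∉ S) {z s : ℂ} (hz : z ∈ (c p).support) :
    ‖z * ((p : ℕ) : ℂ) ^ (-s)‖ ≤ ((p : ℕ) : ℝ) ^ (-(s.re - C)) := by
  rw [norm_mul, Complex.norm_natCast_cpow_of_pos p.2.pos]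
  calc ‖z‖ * ((p : ℕ) : ℝ) ^ (-s).re ≤ ((p : ℕ) : ℝ) ^ C * ((p : ℕ) : ℝ) ^ (-s).re :=
        mul_le_mul_of_nonneg_right ((h p hp).1 z hz) (Real.rpow_nonneg (p_pos p).le _)
    _ = ((p : ℕ) : ℝ) ^ (-(s.re - C)) := by
        rw [← Real.rpow_add (p_pos p)]
        congr 1
        simp
        ring

lemma norm_pt_half {S : Finset Nat.Primes} {c : Nat.Primes → ℂ →₀ ℤ} {C : ℝ} {B : ℕ}
    (h : TB S c C B) {p : Nat.Primes} (hp : p ∉ S) {z s : ℂ} (hz : z ∈ (c p).support)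
    (hs : C + 1 < s.re) : ‖z * ((p : ℕ) : ℂ) ^ (-s)‖ ≤ 1 / 2 :=
  (norm_pt h hp hz).trans (rpow_le_half' (by linarith))

lemma one_sub_ne {S : Finset Nat.Primes} {c : Nat.Primes → ℂ →₀ ℤ} {C : ℝ} {B : ℕ}
    (h : TB S c C B) {p : Nat.Primes} (hp : p ∉ S) {s : ℂ} (hs : C + 1 < s.re) :
    ∀ z ∈ (c p).support, 1 - z * ((p : ℕ) : ℂ) ^ (-s) ≠ 0 := by
  intro z hz h0
  have h1 := norm_pt_half h hp hz hs
  rw [← sub_eq_zero.1 h0, norm_one] at h1
  norm_num at h1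

lemma norm_lp_le {S : Finset Nat.Primes} {c : Nat.Primes → ℂ →₀ ℤ} {C : ℝ} {B : ℕ}
    (h : TB S c C B) {x : ℝ} (hx : 1 < x) {s : ℂ} (hs : C + x ≤ s.re) (p : Nat.Primes) :
    ‖lp S c s p‖ ≤ (B : ℝ) * (3 / 2) * ((p : ℕ) : ℝ) ^ (-x) := by
  classical
  unfold lp
  split_ifs with hp
  · rw [norm_zero]
    have := Real.rpow_nonneg (p_pos p).le (-x)
    positivity
  · have e : ((p : ℕ) : ℝ) ^ (-(s.re - C)) ≤ ((p : ℕ) : ℝ) ^ (-x) :=
      Real.rpow_le_rpow_of_exponent_le (by linarith [p_two p]) (by linarith)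
    have h1 := norm_lg_le (c := c p) (x := ((p : ℕ) : ℂ) ^ (-s))
      (r := ((p : ℕ) : ℝ) ^ (-x)) (rpow_le_half' hx) (fun z hz => (norm_pt h hp hz).trans e)
    refine h1.trans ?_
    have h2 : (((c p).sum fun _ m => m.natAbs : ℕ) : ℝ) ≤ B := by exact_mod_cast (h p hp).2
    have h3 : (0 : ℝ) ≤ ((p : ℕ) : ℝ) ^ (-x) := Real.rpow_nonneg (p_pos p).le _
    calc _ ≤ (B : ℝ) * (3 / 2 * ((p : ℕ) : ℝ) ^ (-x)) :=
          mul_le_mul_of_nonneg_right h2 (by positivity)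
      _ = (B : ℝ) * (3 / 2) * ((p : ℕ) : ℝ) ^ (-x) := by ring

lemma bound_summable (B : ℕ) {x : ℝ} (hx : 1 < x) :
    Summable fun p : Nat.Primes => (B : ℝ) * (3 / 2) * ((p : ℕ) : ℝ) ^ (-x) :=
  (Nat.Primes.summable_rpow.2 (by linarith)).mul_left _

lemma lp_summable {S : Finset Nat.Primes} {c : Nat.Primes → ℂ →₀ ℤ} {C : ℝ} {B : ℕ}
    (h : TB S c C B) {s : ℂ} (hs : C + 1 < s.re) : Summable (lp S c s) :=
  Summable.of_norm_bounded (bound_summable B (x := s.re - C) (by linarith))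
    (norm_lp_le h (by linarith) (by linarith))

open Classical in
lemma exp_lp {S : Finset Nat.Primes} {c : Nat.Primes → ℂ →₀ ℤ} {C : ℝ} {B : ℕ}
    (h : TB S c C B) {s : ℂ} (hs : C + 1 < s.re) (p : Nat.Primes) :
    Complex.exp (lp S c s p) = if p ∈ S then 1 else lf (c p) (((p : ℕ) : ℂ) ^ (-s)) := by
  unfold lp
  split_ifs with hp
  · exact Complex.exp_zero
  · exact exp_lg (one_sub_ne h hp hs)

open Classical in
lemma LD_hasProd {S : Finset Nat.Primes} {c : Nat.Primes → ℂ →₀ ℤ} {C : ℝ} {B : ℕ}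
    (h : TB S c C B) {s : ℂ} (hs : C + 1 < s.re) :
    HasProd (fun p : Nat.Primes => if p ∈ S then 1 else lf (c p) (((p : ℕ) : ℂ) ^ (-s)))
      (Complex.exp (∑' p, lp S c s p)) := by
  have h1 := (lp_summable h hs).hasSum.cexp
  have e : Complex.exp ∘ lp S c s =
      fun p : Nat.Primes => if p ∈ S then 1 else lf (c p) (((p : ℕ) : ℂ) ^ (-s)) :=
    funext fun p => exp_lp h hs p
  rw [e] at h1
  exact h1

open Classical in
lemma LD_multipliable {S : Finset Nat.Primes} {c : Nat.Primes → ℂ →₀ ℤ} {C : ℝ} {B : ℕ}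
    (h : TB S c C B) {s : ℂ} (hs : C + 1 < s.re) :
    Multipliable (fun p : Nat.Primes => if p ∈ S then 1 else lf (c p) (((p : ℕ) : ℂ) ^ (-s))) :=
  (LD_hasProd h hs).multipliable

lemma LD_eq_exp {S : Finset Nat.Primes} {c : Nat.Primes → ℂ →₀ ℤ} {C : ℝ} {B : ℕ}
    (h : TB S c C B) {s : ℂ} (hs : C + 1 < s.re) : LD S c s = Complex.exp (∑' p, lp S c s p) :=
  (LD_hasProd h hs).tprod_eq

lemma LD_ne_zero' {S : Finset Nat.Primes} {c : Nat.Primes → ℂ →₀ ℤ} {C : ℝ} {B : ℕ}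
    (h : TB S c C B) {s : ℂ} (hs : C + 1 < s.re) : LD S c s ≠ 0 := by
  rw [LD_eq_exp h hs]
  exact Complex.exp_ne_zero _

lemma isOpen_halfPlane (σ : ℝ) : IsOpen {s : ℂ | σ < s.re} :=
  isOpen_lt continuous_const Complex.continuous_re

lemma lp_differentiable {S : Finset Nat.Primes} {c : Nat.Primes → ℂ →₀ ℤ} {C : ℝ} {B : ℕ}
    (h : TB S c C B) {s : ℂ} (hs : C + 1 < s.re) (p : Nat.Primes) :
    DifferentiableAt ℂ (fun s => lp S c s p) s := by
  classical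
  unfold lp
  split_ifs with hp
  · exact differentiableAt_const _
  · unfold lg Finsupp.sum
    refine DifferentiableAt.fun_sum fun z hz => ?_
    have h2 : DifferentiableAt ℂ (fun s : ℂ => ((p : ℕ) : ℂ) ^ (-s)) s := by
      have h3 : (fun s : ℂ => ((p : ℕ) : ℂ) ^ (-s)) =
          fun s : ℂ => Complex.exp (Complex.log ((p : ℕ) : ℂ) * (-s)) := by
        funext s
        rw [Complex.cpow_def_of_ne_zero (p_ne p)]
      rw [h3]
      fun_prop
    have h4 := norm_pt_half h hp hz hs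
    have h5 : 1 - z * ((p : ℕ) : ℂ) ^ (-s) ∈ Complex.slitPlane := by
      refine Or.inl ?_
      have h6 : (z * ((p : ℕ) : ℂ) ^ (-s)).re ≤ 1 / 2 := (Complex.re_le_norm _).trans h4
      rw [Complex.sub_re, Complex.one_re]
      linarith
    exact (((differentiableAt_const _).sub (h2.const_mul z)).clog h5).const_mul _

lemma LD_differentiableAt {S : Finset Nat.Primes} {c : Nat.Primes → ℂ →₀ ℤ} {C : ℝ} {B : ℕ}
    (h : TB S c C B) {s : ℂ} (hs : C + 1 < s.re) : DifferentiableAt ℂ (LD S c) s := by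
  obtain ⟨y, hy1, hy2⟩ := exists_between hs
  have h1 : DifferentiableOn ℂ (fun w : ℂ => ∑' p, lp S c w p) {w : ℂ | y < w.re} := by
    refine Complex.differentiableOn_tsum_of_summable_norm
      (bound_summable B (x := y - C) (by linarith)) (fun p w hw => ?_)
      (isOpen_halfPlane y) fun p w hw => ?_
    · exact (lp_differentiable h (lt_trans hy1 hw) p).differentiableWithinAt
    · have hw' : y < w.re := hw
      exact norm_lp_le h (by linarith) (by linarith) p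
  have h2 : DifferentiableAt ℂ (fun w : ℂ => ∑' p, lp S c w p) s :=
    h1.differentiableAt ((isOpen_halfPlane y).mem_nhds hy2)
  refine h2.cexp.congr_of_eventuallyEq ?_
  filter_upwards [(isOpen_halfPlane y).mem_nhds hy2] with w hw
  exact LD_eq_exp h (lt_trans hy1 hw)

lemma LD_analytic' {S : Finset Nat.Primes} {c : Nat.Primes → ℂ →₀ ℤ} {C : ℝ} {B : ℕ}
    (h : TB S c C B) : AnalyticOnNhd ℂ (LD S c) {s : ℂ | C + 1 < s.re} :=
  DifferentiableOn.analyticOnNhd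
    (fun _ hs => (LD_differentiableAt h hs).differentiableWithinAt) (isOpen_halfPlane _)

/-- **Convergence, analyticity, non-vanishing in a half-plane.** -/
theorem LD_facts {S : Finset Nat.Primes} {c : Nat.Primes → ℂ →₀ ℤ} (h : TD S c) :
    ∃ σ : ℝ, AnalyticOnNhd ℂ (LD S c) {s : ℂ | σ < s.re} ∧ ∀ s : ℂ, σ < s.re → LD S c s ≠ 0 := by
  obtain ⟨C, B, _, h⟩ := h
  exact ⟨C + 1, LD_analytic' h, fun s hs => LD_ne_zero' h hs⟩

lemma TB.mono {S : Finset Nat.Primes} {c : Nat.Primes → ℂ →₀ ℤ} {C C' : ℝ} {B : ℕ}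
    (h : TB S c C B) (hC : C ≤ C') : TB S c C' B := fun p hp =>
  ⟨fun z hz => ((h p hp).1 z hz).trans
    (Real.rpow_le_rpow_of_exponent_le (by linarith [p_two p]) hC), (h p hp).2⟩

lemma TB.add {S : Finset Nat.Primes} {c c' : Nat.Primes → ℂ →₀ ℤ} {C : ℝ} {B B' : ℕ}
    (h : TB S c C B) (h' : TB S c' C B') : TB S (fun p => c p + c' p) C (B + B') := by
  classical
  refine fun p hp => ⟨fun z hz => ?_, (sum_add_le _ _).trans (add_le_add (h p hp).2 (h' p hp).2)⟩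
  rcases Finset.mem_union.1 (Finsupp.support_add hz) with hz | hz
  · exact (h p hp).1 z hz
  · exact (h' p hp).1 z hz

lemma TB.zsmul {S : Finset Nat.Primes} {c : Nat.Primes → ℂ →₀ ℤ} {C : ℝ} {B : ℕ}
    (h : TB S c C B) (m : ℤ) : TB S (fun p => m • c p) C (m.natAbs * B) := by
  classical
  exact fun p hp => ⟨fun z hz => (h p hp).1 z (Finsupp.support_smul hz),
    (sum_zsmul_le _ _).trans (Nat.mul_le_mul_left _ (h p hp).2)⟩

lemma TD.add {S : Finset Nat.Primes} {c c' : Nat.Primes → ℂ →₀ ℤ} (h : TD S c) (h' : TD S c') :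
    TD S (fun p => c p + c' p) := by
  obtain ⟨C, B, hC, h⟩ := h
  obtain ⟨C', B', hC', h'⟩ := h'
  have h1 : TB S c (max C C') B := TB.mono h (le_max_left _ _)
  have h2 : TB S c' (max C C') B' := TB.mono h' (le_max_right _ _)
  exact ⟨max C C', B + B', le_max_of_le_left hC, h1.add h2⟩

lemma TD.zsmul {S : Finset Nat.Primes} {c : Nat.Primes → ℂ →₀ ℤ} (h : TD S c) (m : ℤ) :
    TD S (fun p => m • c p) := by
  obtain ⟨C, B, hC, h⟩ := h
  exact ⟨C, m.natAbs * B, hC, TB.zsmul h m⟩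

lemma TD.zero (S : Finset Nat.Primes) : TD S (fun _ => 0) :=
  ⟨0, 0, le_rfl, fun p _ => ⟨fun z hz => by simp at hz, by simp⟩⟩

lemma TD.finset_sum {ι : Type*} {S : Finset Nat.Primes} (F : Finset ι)
    {c : ι → Nat.Primes → ℂ →₀ ℤ} (h : ∀ i ∈ F, TD S (c i)) : TD S (fun p => ∑ i ∈ F, c i p) := by
  classical
  induction F using Finset.induction_on with
  | empty => simpa using TD.zero S
  | insert a F ha ih =>
    simp_rw [Finset.sum_insert ha]
    exact (h a (Finset.mem_insert_self _ _)).add (ih fun i hi => h i (Finset.mem_insert_of_mem hi))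

lemma TD.congr {S : Finset Nat.Primes} {c c' : Nat.Primes → ℂ →₀ ℤ} (h : TD S c)
    (e : ∀ p, p ∉ S → c p = c' p) : TD S c' := by
  obtain ⟨C, B, hC, h⟩ := h
  exact ⟨C, B, hC, fun p hp => by rw [← e p hp]; exact h p hp⟩

lemma LD_congr {S : Finset Nat.Primes} {c c' : Nat.Primes → ℂ →₀ ℤ}
    (e : ∀ p, p ∉ S → c p = c' p) (s : ℂ) : LD S c s = LD S c' s := by
  classical
  unfold LD
  refine tprod_congr fun p => ?_
  split_ifs with hp
  · rfl
  · rw [e p hp]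

lemma LD_zero (S : Finset Nat.Primes) (s : ℂ) : LD S (fun _ => 0) s = 1 := by
  classical
  unfold LD
  refine (tprod_congr fun v => ?_).trans tprod_one
  split_ifs with hv
  · rfl
  · rw [lf_zero]

theorem LD_add {S : Finset Nat.Primes} {c c' : Nat.Primes → ℂ →₀ ℤ} (h : TD S c) (h' : TD S c') :
    ∃ σ : ℝ, ∀ s : ℂ, σ < s.re → LD S (fun p => c p + c' p) s = LD S c s * LD S c' s := by
  classical
  obtain ⟨C, B, hC, h⟩ := h
  obtain ⟨C', B', hC', h'⟩ := h'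
  have h1 : TB S c (max C C') B := TB.mono h (le_max_left _ _)
  have h2 : TB S c' (max C C') B' := TB.mono h' (le_max_right _ _)
  refine ⟨max C C' + 1, fun s hs => ?_⟩
  have h3 := LD_multipliable h1 hs
  have h4 := LD_multipliable h2 hs
  unfold LD
  rw [← h3.tprod_mul h4]
  refine tprod_congr fun p => ?_
  split_ifs with hp
  · rw [one_mul]
  · rw [lf_add _ _ _ (one_sub_ne h1 hp hs) (one_sub_ne h2 hp hs)]

theorem LD_zsmul {S : Finset Nat.Primes} {c : Nat.Primes → ℂ →₀ ℤ} (h : TD S c) (m : ℤ) :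
    ∃ σ : ℝ, ∀ s : ℂ, σ < s.re → LD S (fun p => m • c p) s = LD S c s ^ m := by
  classical
  obtain ⟨C, B, hC, h⟩ := h
  refine ⟨C + 1, fun s hs => ?_⟩
  rw [LD_eq_exp h hs, ← Complex.exp_int_mul, ← tsum_mul_left]
  have h1 := ((lp_summable h hs).mul_left (m : ℂ)).hasSum.cexp
  rw [← h1.tprod_eq]
  unfold LD
  refine tprod_congr fun p => ?_
  simp only [Function.comp]
  rw [Complex.exp_int_mul, exp_lp h hs]
  split_ifs with hp
  · rw [one_zpow]
  · rw [lf_smul]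

theorem LD_finset_sum {ι : Type*} {S : Finset Nat.Primes} (F : Finset ι)
    {c : ι → Nat.Primes → ℂ →₀ ℤ} (h : ∀ i ∈ F, TD S (c i)) :
    ∃ σ : ℝ, ∀ s : ℂ, σ < s.re → LD S (fun p => ∑ i ∈ F, c i p) s = ∏ i ∈ F, LD S (c i) s := by
  classical
  induction F using Finset.induction_on with
  | empty => exact ⟨0, fun s _ => by simpa using LD_zero S s⟩
  | insert a F ha ih =>
    obtain ⟨σ, h1⟩ := ih fun i hi => h i (Finset.mem_insert_of_mem hi)
    obtain ⟨σ', h2⟩ := LD_add (h a (Finset.mem_insert_self _ _))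
      (TD.finset_sum F fun i hi => h i (Finset.mem_insert_of_mem hi))
    refine ⟨max σ σ', fun s hs => ?_⟩
    simp_rw [Finset.sum_insert ha]
    rw [h2 s (lt_of_le_of_lt (le_max_right _ _) hs), Finset.prod_insert ha,
      h1 s (lt_of_le_of_lt (le_max_left _ _) hs)]

/-! ### Translations -/

/-- All points are multiplied by `p^{-u}`. -/
noncomputable def shD (u : ℝ) (c : Nat.Primes → ℂ →₀ ℤ) (p : Nat.Primes) : ℂ →₀ ℤ :=
  (c p).mapDomain (fun z => z * ((p : ℕ) : ℂ) ^ (-(u : ℂ)))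

lemma cpow_ne (p : Nat.Primes) (u : ℂ) : ((p : ℕ) : ℂ) ^ u ≠ 0 := by
  rw [Ne, Complex.cpow_eq_zero_iff]
  exact fun h => p_ne p h.1

lemma inj_shD (u : ℝ) (p : Nat.Primes) :
    Function.Injective (fun z : ℂ => z * ((p : ℕ) : ℂ) ^ (-(u : ℂ))) :=
  fun _ _ h => mul_right_cancel₀ (cpow_ne p _) h

theorem LD_shD (S : Finset Nat.Primes) (c : Nat.Primes → ℂ →₀ ℤ) (u : ℝ) (s : ℂ) :
    LD S (shD u c) s = LD S c (s + u) := by
  classical
  unfold LD
  refine tprod_congr fun p => ?_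
  split_ifs with hp
  · rfl
  · unfold lf shD
    rw [Finsupp.prod_mapDomain_index_inj (inj_shD u p)]
    refine Finset.prod_congr rfl fun z _ => ?_
    show (1 - z * ((p : ℕ) : ℂ) ^ (-(u : ℂ)) * ((p : ℕ) : ℂ) ^ (-s)) ^ _ = _
    rw [neg_add, Complex.cpow_add _ _ (p_ne p)]
    congr 2
    ring

lemma TD.shD {S : Finset Nat.Primes} {c : Nat.Primes → ℂ →₀ ℤ} (h : TD S c) (u : ℝ) :
    TD S (shD u c) := by
  classical
  obtain ⟨C, B, hC, h⟩ := h
  refine ⟨C + |u|, B, by positivity, fun p hp => ⟨fun y hy => ?_, ?_⟩⟩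
  · unfold SP.shD at hy
    rw [Finsupp.mapDomain_support_of_injective (inj_shD u p)] at hy
    obtain ⟨z, hz, rfl⟩ := Finset.mem_image.1 hy
    rw [norm_mul, Complex.norm_natCast_cpow_of_pos p.2.pos, Real.rpow_add (p_pos p)]
    refine mul_le_mul ((h p hp).1 z hz) ?_ (Real.rpow_nonneg (p_pos p).le _)
      (Real.rpow_nonneg (p_pos p).le _)
    refine Real.rpow_le_rpow_of_exponent_le (by linarith [p_two p]) ?_
    simpa using neg_le_abs u
  · unfold SP.shD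
    rw [Finsupp.sum_mapDomain_index_inj (inj_shD u p)]
    exact (h p hp).2

/-! ### The L-functions of the representations -/

/-- The divisor of the values of the weights. -/
noncomputable def dv {n : ℕ} (A : Par n) (m : Rep n) (p : Nat.Primes) : ℂ →₀ ℤ :=
  m.coeff.mapDomain (A.ev p)

lemma ev_add {S : Finset Nat.Primes} {n : ℕ} {A : Par n} (hA : Tame S A) {p : Nat.Primes}
    (hp : p ∉ S) (w w' : ℤ × (Fin n → ℤ)) : A.ev p (w + w') = A.ev p w * A.ev p w' := by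
  obtain ⟨C, _, h⟩ := hA
  obtain ⟨h1, _, _, h2⟩ := h p hp
  unfold Par.ev
  rw [Prod.fst_add, zpow_add₀ h1, Prod.snd_add]
  simp_rw [Pi.add_apply]
  rw [Finset.prod_congr rfl fun i _ => zpow_add₀ (h2 i).1 (w.2 i) (w'.2 i), Finset.prod_mul_distrib]
  ring

lemma norm_zpow_le {x : ℂ} {p : Nat.Primes} {C : ℝ} (h1 : ‖x‖ ≤ ((p : ℕ) : ℝ) ^ C)
    (h2 : ‖x⁻¹‖ ≤ ((p : ℕ) : ℝ) ^ C) (k : ℤ) : ‖x ^ k‖ ≤ ((p : ℕ) : ℝ) ^ (C * (k.natAbs : ℝ)) := by
  rw [Real.rpow_mul (p_pos p).le, Real.rpow_natCast]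
  rcases Int.natAbs_eq k with hk | hk
  · rw [show x ^ k = x ^ k.natAbs by
      conv_lhs => rw [hk]
      exact zpow_natCast x k.natAbs, norm_pow]
    exact pow_le_pow_left₀ (norm_nonneg _) h1 _
  · rw [show x ^ k = (x⁻¹) ^ k.natAbs by
      conv_lhs => rw [hk]
      rw [zpow_neg, zpow_natCast, inv_pow], norm_pow]
    exact pow_le_pow_left₀ (norm_nonneg _) h2 _

lemma norm_ev_le {n : ℕ} {A : Par n} {p : Nat.Primes} {C : ℝ}
    (h1 : ‖A.a0 p‖ ≤ ((p : ℕ) : ℝ) ^ C) (h2 : ‖(A.a0 p)⁻¹‖ ≤ ((p : ℕ) : ℝ) ^ C)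
    (h3 : ∀ i, ‖A.a p i‖ ≤ ((p : ℕ) : ℝ) ^ C ∧ ‖(A.a p i)⁻¹‖ ≤ ((p : ℕ) : ℝ) ^ C)
    (w : ℤ × (Fin n → ℤ)) :
    ‖A.ev p w‖ ≤ ((p : ℕ) : ℝ) ^ (C * ((w.1.natAbs : ℝ) + ∑ i, ((w.2 i).natAbs : ℝ))) := by
  unfold Par.ev
  rw [norm_mul, norm_prod, mul_add, Real.rpow_add (p_pos p), Finset.mul_sum,
    Real.rpow_sum_of_pos (p_pos p)]
  refine mul_le_mul (norm_zpow_le h1 h2 _) ?_ (Finset.prod_nonneg fun _ _ => norm_nonneg _)
    (Real.rpow_nonneg (p_pos p).le _)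
  exact Finset.prod_le_prod (fun _ _ => norm_nonneg _) fun i _ => norm_zpow_le (h3 i).1 (h3 i).2 _

lemma sum_mapDomain_le {α : Type*} (f : α → ℂ) (c : α →₀ ℤ) :
    ((c.mapDomain f).sum fun _ m => m.natAbs) ≤ c.sum fun _ m => m.natAbs := by
  classical
  induction c using Finsupp.induction with
  | zero => simp
  | single_add a b c ha hb ih =>
    rw [Finsupp.mapDomain_add, Finsupp.mapDomain_single]
    refine (sum_add_le _ _).trans ?_
    rw [Finsupp.sum_single_index rfl]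
    have h1 : ((Finsupp.single a b + c).sum fun _ m => m.natAbs) =
        b.natAbs + c.sum fun _ m => m.natAbs := by
      rw [Finsupp.sum_add_index_of_disjoint, Finsupp.sum_single_index rfl]
      rw [Finsupp.support_single_ne_zero _ hb]
      exact Finset.disjoint_singleton_left.2 ha
    rw [h1]
    exact Nat.add_le_add_left ih _

/-- the values of the weights are polynomially bounded -/
lemma exists_bound {S : Finset Nat.Primes} {n : ℕ} {A : Par n} (hA : Tame S A) (m : Rep n) :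
    ∃ C : ℝ, 0 ≤ C ∧ ∀ p, p ∉ S → ∀ w ∈ m.coeff.support, ‖A.ev p w‖ ≤ ((p : ℕ) : ℝ) ^ C := by
  obtain ⟨C, hC, h⟩ := hA
  refine ⟨C * ∑ w ∈ m.coeff.support, ((w.1.natAbs : ℝ) + ∑ i, ((w.2 i).natAbs : ℝ)),
    by positivity, fun p hp w hw => ?_⟩
  obtain ⟨_, h2, h3, h4⟩ := h p hp
  refine (norm_ev_le h2 h3 (fun i => (h4 i).2) w).trans
    (Real.rpow_le_rpow_of_exponent_le (by linarith [p_two p]) ?_)
  refine mul_le_mul_of_nonneg_left ?_ hC
  exact Finset.single_le_sum (f := fun w : ℤ × (Fin n → ℤ) => ((w.1.natAbs : ℝ) +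
    ∑ i, ((w.2 i).natAbs : ℝ))) (fun w _ => by positivity) hw

lemma TD_dv {S : Finset Nat.Primes} {n : ℕ} {A : Par n} (hA : Tame S A) (m : Rep n) :
    TD S (dv A m) := by
  classical
  obtain ⟨C, hC, h⟩ := exists_bound hA m
  refine ⟨C, m.coeff.sum fun _ m => m.natAbs, hC, fun p hp => ⟨fun z hz => ?_, ?_⟩⟩
  · obtain ⟨w, hw, rfl⟩ := Finset.mem_image.1 (Finsupp.mapDomain_support hz)
    exact h p hp w hw
  · exact sum_mapDomain_le _ _

lemma lf_mapDomain {α : Type*} (f : α → ℂ) (c : α →₀ ℤ) (x : ℂ)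
    (h : ∀ w ∈ c.support, 1 - f w * x ≠ 0) :
    lf (c.mapDomain f) x = c.prod fun w e => (1 - f w * x) ^ (-e) := by
  classical
  have h1 : c.mapDomain f = ∑ w ∈ c.support, Finsupp.single (f w) (c w) := by
    unfold Finsupp.mapDomain Finsupp.sum
    rfl
  rw [h1]
  unfold Finsupp.prod
  have key : ∀ F : Finset α, F ⊆ c.support →
      lf (∑ w ∈ F, Finsupp.single (f w) (c w)) x = ∏ w ∈ F, (1 - f w * x) ^ (-(c w)) ∧
      ∀ z ∈ (∑ w ∈ F, Finsupp.single (f w) (c w)).support, ∃ w ∈ F, f w = z := by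
    intro F
    induction F using Finset.induction_on with
    | empty => exact fun _ => ⟨by simp [lf_zero], fun z hz => by simp at hz⟩
    | insert a F ha ih =>
      intro hF
      obtain ⟨ih1, ih2⟩ := ih fun w hw => hF (Finset.mem_insert_of_mem hw)
      have h3 : ∀ z ∈ (Finsupp.single (f a) (c a)).support, z = f a := fun z hz =>
        Finset.mem_singleton.1 (Finsupp.support_single_subset hz)
      rw [Finset.sum_insert ha, Finset.prod_insert ha]
      refine ⟨?_, fun z hz => ?_⟩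
      · rw [lf_add, lf_single, ih1]
        · intro z hz
          rw [h3 z hz]
          exact h a (hF (Finset.mem_insert_self _ _))
        · intro z hz
          obtain ⟨w, hw, rfl⟩ := ih2 z hz
          exact h w (hF (Finset.mem_insert_of_mem hw))
      · rcases Finset.mem_union.1 (Finsupp.support_add hz) with hz | hz
        · exact ⟨a, Finset.mem_insert_self _ _, (h3 z hz).symm⟩
        · obtain ⟨w, hw, e⟩ := ih2 z hz
          exact ⟨w, Finset.mem_insert_of_mem hw, e⟩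
  exact (key _ subset_rfl).1

/-- **The Euler product of a representation is the Euler product of its divisor.** -/
theorem LS_eq_LD {S : Finset Nat.Primes} {n : ℕ} {A : Par n} (hA : Tame S A) (m : Rep n) :
    ∃ σ : ℝ, ∀ s : ℂ, σ < s.re → LS S A m s = LD S (dv A m) s := by
  classical
  obtain ⟨C, hC, h⟩ := exists_bound hA m
  refine ⟨C + 1, fun s hs => ?_⟩
  unfold LS LD
  refine tprod_congr fun p => ?_
  split_ifs with hp
  · rfl
  · rw [dv, lf_mapDomain]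
    intro w hw h0
    have h1 : ‖A.ev p w * ((p : ℕ) : ℂ) ^ (-s)‖ ≤ 1 / 2 := by
      rw [norm_mul, Complex.norm_natCast_cpow_of_pos p.2.pos]
      calc ‖A.ev p w‖ * ((p : ℕ) : ℝ) ^ (-s).re ≤ ((p : ℕ) : ℝ) ^ C * ((p : ℕ) : ℝ) ^ (-s).re :=
            mul_le_mul_of_nonneg_right (h p hp w hw) (Real.rpow_nonneg (p_pos p).le _)
        _ = ((p : ℕ) : ℝ) ^ (-(s.re - C)) := by
            rw [← Real.rpow_add (p_pos p)]
            congr 1
            simp
            ring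
        _ ≤ 1 / 2 := rpow_le_half' (by linarith)
    rw [← sub_eq_zero.1 h0, norm_one] at h1
    norm_num at h1

lemma dv_add {n : ℕ} (A : Par n) (m m' : Rep n) (p : Nat.Primes) :
    dv A (m + m') p = dv A m p + dv A m' p := by
  unfold dv
  rw [AddMonoidAlgebra.coeff_add, Finsupp.mapDomain_add]

lemma dv_zsmul {n : ℕ} (A : Par n) (k : ℤ) (m : Rep n) (p : Nat.Primes) :
    dv A (k • m) p = k • dv A m p := by
  unfold dv
  rw [AddMonoidAlgebra.coeff_smul, Finsupp.mapDomain_smul]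

theorem LS_facts {S : Finset Nat.Primes} {n : ℕ} {A : Par n} (hA : Tame S A) (m : Rep n) :
    ∃ σ : ℝ, AnalyticOnNhd ℂ (LS S A m) {s : ℂ | σ < s.re} ∧ ∀ s : ℂ, σ < s.re → LS S A m s ≠ 0 := by
  obtain ⟨σ, h1⟩ := LS_eq_LD hA m
  obtain ⟨σ', h2, h3⟩ := LD_facts (TD_dv hA m)
  refine ⟨max σ σ', fun s hs => ?_, fun s hs => ?_⟩
  · have hs' : max σ σ' < s.re := hs
    refine (h2 s (lt_of_le_of_lt (le_max_right _ _) hs')).congr ?_
    filter_upwards [(isOpen_halfPlane (max σ σ')).mem_nhds hs'] with w hw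
    exact (h1 w (lt_of_le_of_lt (le_max_left _ _) hw)).symm
  · rw [h1 s (lt_of_le_of_lt (le_max_left _ _) hs)]
    exact h3 s (lt_of_le_of_lt (le_max_right _ _) hs)

theorem LS_add {S : Finset Nat.Primes} {n : ℕ} {A : Par n} (hA : Tame S A) (m m' : Rep n) :
    ∃ σ : ℝ, ∀ s : ℂ, σ < s.re → LS S A (m + m') s = LS S A m s * LS S A m' s := by
  obtain ⟨σ, h1⟩ := LS_eq_LD hA (m + m')
  obtain ⟨σ1, h2⟩ := LS_eq_LD hA m
  obtain ⟨σ2, h3⟩ := LS_eq_LD hA m'
  obtain ⟨σ3, h4⟩ := LD_add (TD_dv hA m) (TD_dv hA m')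
  refine ⟨max (max σ σ1) (max σ2 σ3), fun s hs => ?_⟩
  simp only [max_lt_iff] at hs
  obtain ⟨⟨a1, a2⟩, a3, a4⟩ := hs
  rw [h1 s a1, h2 s a2, h3 s a3, ← h4 s a4]
  exact LD_congr (fun p _ => dv_add A m m' p) s

theorem LS_zsmul {S : Finset Nat.Primes} {n : ℕ} {A : Par n} (hA : Tame S A) (k : ℤ)
    (m : Rep n) : ∃ σ : ℝ, ∀ s : ℂ, σ < s.re → LS S A (k • m) s = LS S A m s ^ k := by
  obtain ⟨σ, h1⟩ := LS_eq_LD hA (k • m)
  obtain ⟨σ1, h2⟩ := LS_eq_LD hA m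
  obtain ⟨σ3, h4⟩ := LD_zsmul (TD_dv hA m) k
  refine ⟨max (max σ σ1) σ3, fun s hs => ?_⟩
  simp only [max_lt_iff] at hs
  obtain ⟨⟨a1, a2⟩, a4⟩ := hs
  rw [h1 s a1, h2 s a2, ← h4 s a4]
  exact LD_congr (fun p _ => dv_zsmul A k m p) s

end Pool.Agent.V8H25.SP
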