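import Pool.Agent.V8H25.SP.An
import Pool.Agent.V8H32.SP.Stmt

/-!
# The class of the products of spin L-functions: closure properties, separation, continuation
-/

set_option autoImplicit false
set_option linter.unusedSectionVars false

namespace Pool.Agent.V8H25.SP

open Filter Topology
open Pool.Agent.V8H32.SP

variable {S : Finset Nat.Primes} {𝒮 : ∀ n, Set (Par n)}

/-- the product of the items of the list -/
noncomputable def lprod (S : Finset Nat.Primes) (l : List ((Σ n, Par n) × ℝ × ℤ)) (s : ℂ) : ℂ :=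
  (l.map fun x => LS S x.1.2 (spin x.1.1) (s + x.2.1) ^ x.2.2).prod

/-- The condition of `SpinProduct` for one half-plane. -/
def QR (S : Finset Nat.Primes) (𝒮 : ∀ n, Set (Par n)) (R : ℝ) (L : ℂ → ℂ) : Prop :=
  ∃ (l : List ((Σ n, Par n) × ℝ × ℤ)) (E : ℂ → ℂ) (σ : ℝ),
    (∀ x ∈ l, 1 ≤ x.1.1 ∧ x.1.2 ∈ 𝒮 x.1.1) ∧ AnalyticOnNhd ℂ E {s | -R < s.re} ∧
    (∀ s : ℂ, -R < s.re → E s ≠ 0) ∧ ∀ s : ℂ, σ < s.re → L s = E s * lprod S l s

lemma spinProduct_iff {L : ℂ → ℂ} : SpinProduct S 𝒮 L ↔ ∀ R, QR S 𝒮 R L := by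
  constructor
  · intro h R
    obtain ⟨r, N, A, c, e, E, σ, h1, h2, h3, h4⟩ := h R
    refine ⟨List.ofFn fun k : Fin r => (⟨N k, A k⟩, c k, e k), E, σ, fun x hx => ?_, h2, h3,
      fun s hs => ?_⟩
    · rw [List.mem_ofFn] at hx
      obtain ⟨k, rfl⟩ := hx
      exact h1 k
    · rw [h4 s hs, lprod, List.map_ofFn, List.prod_ofFn]
      rfl
  · intro h R
    obtain ⟨l, E, σ, h1, h2, h3, h4⟩ := h R
    refine ⟨l.length, fun k => (l.get k).1.1, fun k => (l.get k).1.2, fun k => (l.get k).2.1,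
      fun k => (l.get k).2.2, E, σ, fun k => h1 _ (List.get_mem l k), h2, h3, fun s hs => ?_⟩
    rw [h4 s hs, lprod]
    congr 1
    rw [← List.prod_ofFn]
    congr 1
    rw [← List.ofFn_get (l.map _)]
    refine List.ext_get (by simp) fun n h₁ h₂ => ?_
    simp

lemma QR.mul {R : ℝ} {L L' : ℂ → ℂ} (h : QR S 𝒮 R L) (h' : QR S 𝒮 R L') :
    QR S 𝒮 R (fun s => L s * L' s) := by
  obtain ⟨l, E, σ, h1, h2, h3, h4⟩ := h
  obtain ⟨l', E', σ', h1', h2', h3', h4'⟩ := h'
  refine ⟨l ++ l', fun s => E s * E' s, max σ σ', fun x hx => ?_,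
    fun s hs => (h2 s hs).mul (h2' s hs), fun s hs => mul_ne_zero (h3 s hs) (h3' s hs),
    fun s hs => ?_⟩
  · rcases List.mem_append.1 hx with hx | hx
    · exact h1 x hx
    · exact h1' x hx
  · simp only
    rw [h4 s (lt_of_le_of_lt (le_max_left _ _) hs), h4' s (lt_of_le_of_lt (le_max_right _ _) hs)]
    unfold lprod
    rw [List.map_append, List.prod_append]
    ring

lemma lprod_zpow (l : List ((Σ n, Par n) × ℝ × ℤ)) (m : ℤ) (s : ℂ) :
    lprod S l s ^ m = lprod S (l.map fun x => (x.1, x.2.1, x.2.2 * m)) s := by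
  induction l with
  | nil => simp [lprod]
  | cons a l ih =>
    unfold lprod at ih ⊢
    simp only [List.map_cons, List.prod_cons]
    rw [mul_zpow, ih, zpow_mul]

lemma QR.zpow {R : ℝ} {L : ℂ → ℂ} (h : QR S 𝒮 R L) (m : ℤ) : QR S 𝒮 R (fun s => L s ^ m) := by
  obtain ⟨l, E, σ, h1, h2, h3, h4⟩ := h
  refine ⟨l.map fun x => (x.1, x.2.1, x.2.2 * m), fun s => E s ^ m, σ, fun x hx => ?_,
    fun s hs => (h2 s hs).zpow (h3 s hs), fun s hs => zpow_ne_zero _ (h3 s hs), fun s hs => ?_⟩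
  · obtain ⟨y, hy, rfl⟩ := List.mem_map.1 hx
    exact h1 y hy
  · simp only
    rw [h4 s hs, mul_zpow, lprod_zpow]

lemma QR.shift {R : ℝ} {L : ℂ → ℂ} {c : ℝ} (h : QR S 𝒮 (R - c) L) :
    QR S 𝒮 R (fun s => L (s + c)) := by
  obtain ⟨l, E, σ, h1, h2, h3, h4⟩ := h
  refine ⟨l.map fun x => (x.1, c + x.2.1, x.2.2), fun s => E (s + c), σ - c, fun x hx => ?_,
    fun s hs => ?_, fun s hs => h3 _ ?_, fun s hs => ?_⟩
  · obtain ⟨y, hy, rfl⟩ := List.mem_map.1 hx
    exact h1 y hy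
  · have hs' : -R < s.re := hs
    have h5 : s + (c : ℂ) ∈ {s : ℂ | -(R - c) < s.re} := by
      show -(R - c) < (s + (c : ℂ)).re
      rw [Complex.add_re, Complex.ofReal_re]
      linarith
    exact (h2 _ h5).comp_of_eq (f := fun s : ℂ => s + (c : ℂ)) (by fun_prop) rfl
  · rw [Complex.add_re, Complex.ofReal_re]
    linarith
  · simp only
    rw [h4 (s + c) (by rw [Complex.add_re, Complex.ofReal_re]; linarith)]
    congr 1
    unfold lprod
    rw [List.map_map]
    congr 1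
    refine List.map_congr_left fun x _ => ?_
    simp only [Function.comp]
    push_cast
    rw [add_assoc]

lemma QR.congr {R : ℝ} {L L' : ℂ → ℂ} (h : QR S 𝒮 R L) {σ0 : ℝ}
    (e : ∀ s : ℂ, σ0 < s.re → L' s = L s) : QR S 𝒮 R L' := by
  obtain ⟨l, E, σ, h1, h2, h3, h4⟩ := h
  refine ⟨l, E, max σ σ0, h1, h2, h3, fun s hs => ?_⟩
  rw [e s (lt_of_le_of_lt (le_max_right _ _) hs), h4 s (lt_of_le_of_lt (le_max_left _ _) hs)]

lemma QR.of_analytic {R : ℝ} {E : ℂ → ℂ} (h2 : AnalyticOnNhd ℂ E {s | -R < s.re})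
    (h3 : ∀ s : ℂ, -R < s.re → E s ≠ 0) : QR S 𝒮 R E :=
  ⟨[], E, 0, fun x hx => by simp at hx, h2, h3, fun s _ => by simp [lprod]⟩

lemma QR.one (R : ℝ) : QR S 𝒮 R (fun _ => 1) :=
  QR.of_analytic analyticOnNhd_const fun _ _ => one_ne_zero

lemma QR.finset_prod {R : ℝ} {ι : Type*} (F : Finset ι) {L : ι → ℂ → ℂ}
    (h : ∀ i ∈ F, QR S 𝒮 R (L i)) : QR S 𝒮 R (fun s => ∏ i ∈ F, L i s) := by
  classical
  induction F using Finset.induction_on with
  | empty => simpa using QR.one R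
  | insert a F ha ih =>
    simp_rw [Finset.prod_insert ha]
    exact (h a (Finset.mem_insert_self _ _)).mul (ih fun i hi => h i (Finset.mem_insert_of_mem hi))

/-! ### Closure properties of the class -/

theorem Q_spin {n : ℕ} (hn : 1 ≤ n) {A : Par n} (hA : A ∈ 𝒮 n) :
    SpinProduct S 𝒮 (LS S A (spin n)) := by
  rw [spinProduct_iff]
  intro R
  refine ⟨[(⟨n, A⟩, 0, 1)], fun _ => 1, 0, fun x hx => ?_, analyticOnNhd_const,
    fun _ _ => one_ne_zero, fun s _ => ?_⟩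
  · rw [List.mem_singleton] at hx
    subst hx
    exact ⟨hn, hA⟩
  · simp [lprod]

theorem Q_one : SpinProduct S 𝒮 (fun _ => 1) := spinProduct_iff.2 fun R => QR.one R

theorem Q_mul {L L' : ℂ → ℂ} (h : SpinProduct S 𝒮 L) (h' : SpinProduct S 𝒮 L') :
    SpinProduct S 𝒮 (fun s => L s * L' s) :=
  spinProduct_iff.2 fun R => (spinProduct_iff.1 h R).mul (spinProduct_iff.1 h' R)

theorem Q_zpow {L : ℂ → ℂ} (h : SpinProduct S 𝒮 L) (m : ℤ) :
    SpinProduct S 𝒮 (fun s => L s ^ m) :=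
  spinProduct_iff.2 fun R => (spinProduct_iff.1 h R).zpow m

theorem Q_inv {L : ℂ → ℂ} (h : SpinProduct S 𝒮 L) : SpinProduct S 𝒮 (fun s => (L s)⁻¹) := by
  have h1 := Q_zpow h (-1)
  simp_rw [zpow_neg_one] at h1
  exact h1

theorem Q_finset_prod {ι : Type*} (F : Finset ι) {L : ι → ℂ → ℂ}
    (h : ∀ i ∈ F, SpinProduct S 𝒮 (L i)) : SpinProduct S 𝒮 (fun s => ∏ i ∈ F, L i s) :=
  spinProduct_iff.2 fun R => QR.finset_prod F fun i hi => spinProduct_iff.1 (h i hi) R

theorem Q_shift {L : ℂ → ℂ} (h : SpinProduct S 𝒮 L) (c : ℝ) :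
    SpinProduct S 𝒮 (fun s => L (s + c)) :=
  spinProduct_iff.2 fun R => (spinProduct_iff.1 h (R - c)).shift

theorem Q_congr {L L' : ℂ → ℂ} (h : SpinProduct S 𝒮 L) {σ0 : ℝ}
    (e : ∀ s : ℂ, σ0 < s.re → L' s = L s) : SpinProduct S 𝒮 L' :=
  spinProduct_iff.2 fun R => (spinProduct_iff.1 h R).congr e

/-- **Separation.** If for all `u ≥ 0` the product `∏_j L_j(s + j u)` is in the class, and the `L_j` are
holomorphic without zeros in a half-plane, then all `L_j` are in the class. -/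
theorem separation {M : ℕ} {L : ℕ → ℂ → ℂ} {σ : ℝ}
    (hL : ∀ j, j ≤ M → AnalyticOnNhd ℂ (L j) {s | σ < s.re} ∧ ∀ s : ℂ, σ < s.re → L j s ≠ 0)
    (hF : ∀ u : ℝ, 0 ≤ u →
      SpinProduct S 𝒮 (fun s => ∏ j ∈ Finset.range (M + 1), L j (s + ((j : ℝ) * u : ℝ)))) :
    ∀ j, j ≤ M → SpinProduct S 𝒮 (L j) := by
  intro j
  induction j using Nat.strong_induction_on with
  | _ j ih =>
    intro hj
    rw [spinProduct_iff]
    intro R
    set u : ℝ := max 0 (σ + R + 1) with hu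
    have hu0 : 0 ≤ u := le_max_left _ _
    have hu1 : σ + R + 1 ≤ u := le_max_right _ _
    have h1 := Q_shift (hF u hu0) (-((j : ℝ) * u))
    have h2 : SpinProduct S 𝒮 (fun s => ∏ i ∈ Finset.range j,
        (L i (s + (((i : ℝ) - j) * u : ℝ)))⁻¹) := by
      refine Q_finset_prod _ fun i hi => ?_
      have hi' := Finset.mem_range.1 hi
      exact Q_inv (Q_shift (ih i hi' (hi'.le.trans hj)) (((i : ℝ) - j) * u))
    set H : ℂ → ℂ := fun s => ∏ i ∈ Finset.Ico (j + 1) (M + 1),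
      (L i (s + (((i : ℝ) - j) * u : ℝ)))⁻¹ with hH
    have key : ∀ i ∈ Finset.Ico (j + 1) (M + 1), ∀ s : ℂ, -R < s.re →
        σ < (s + ((((i : ℝ) - j) * u : ℝ) : ℂ)).re := by
      intro i hi s hs
      have hi1 := (Finset.mem_Ico.1 hi).1
      have h5 : (1 : ℝ) ≤ (i : ℝ) - j := by
        have : ((j + 1 : ℕ) : ℝ) ≤ (i : ℝ) := by exact_mod_cast hi1
        push_cast at this
        linarith
      rw [Complex.add_re, Complex.ofReal_re]
      nlinarith
    have h3 : QR S 𝒮 R H := by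
      refine QR.of_analytic (fun s hs => ?_) (fun s hs => ?_)
      · have hs' : -R < s.re := hs
        refine Finset.analyticAt_fun_prod _ fun i hi => ?_
        have h6 := key i hi s hs'
        have h7 : i ≤ M := by
          have := (Finset.mem_Ico.1 hi).2
          omega
        refine AnalyticAt.inv ?_ ((hL i h7).2 _ h6)
        exact ((hL i h7).1 _ h6).comp_of_eq
          (f := fun s : ℂ => s + ((((i : ℝ) - j) * u : ℝ) : ℂ)) (by fun_prop) rfl
      · refine Finset.prod_ne_zero_iff.2 fun i hi => inv_ne_zero ((hL i ?_).2 _ (key i hi s hs))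
        have := (Finset.mem_Ico.1 hi).2
        omega
    refine (((spinProduct_iff.1 h1 R).mul (spinProduct_iff.1 h2 R)).mul h3).congr
      (σ0 := |σ| + j * u) fun s hs => ?_
    have hpos : ∀ i, i ≤ M → σ < (s + ((((i : ℝ) - j) * u : ℝ) : ℂ)).re := by
      intro i _
      rw [Complex.add_re, Complex.ofReal_re]
      have h8 : 0 ≤ (i : ℝ) * u := by positivity
      have h9 := le_abs_self σ
      nlinarith
    have hne : ∀ i, i ≤ M → L i (s + ((((i : ℝ) - j) * u : ℝ) : ℂ)) ≠ 0 := fun i hi =>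
      (hL i hi).2 _ (hpos i hi)
    have e1 : ∏ i ∈ Finset.range (M + 1), L i (s + ((-((j : ℝ) * u) : ℝ) : ℂ) +
        (((i : ℝ) * u : ℝ) : ℂ)) =
        ∏ i ∈ Finset.range (M + 1), L i (s + ((((i : ℝ) - j) * u : ℝ) : ℂ)) := by
      refine Finset.prod_congr rfl fun i _ => ?_
      congr 1
      push_cast
      ring
    have e2 : ∏ i ∈ Finset.range (M + 1), L i (s + ((((i : ℝ) - j) * u : ℝ) : ℂ)) =
        (∏ i ∈ Finset.range j, L i (s + ((((i : ℝ) - j) * u : ℝ) : ℂ))) *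
          (L j s * ∏ i ∈ Finset.Ico (j + 1) (M + 1), L i (s + ((((i : ℝ) - j) * u : ℝ) : ℂ))) := by
      rw [← Finset.prod_range_mul_prod_Ico _ (show j ≤ M + 1 by omega),
        Finset.prod_eq_prod_Ico_succ_bot (show j < M + 1 by omega)]
      congr 3
      simp
    simp only [hH]
    rw [e1, e2, Finset.prod_inv_distrib, Finset.prod_inv_distrib]
    have n1 : ∏ i ∈ Finset.range j, L i (s + ((((i : ℝ) - j) * u : ℝ) : ℂ)) ≠ 0 :=
      Finset.prod_ne_zero_iff.2 fun i hi => hne i (by have := Finset.mem_range.1 hi; omega)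
    have n2 : ∏ i ∈ Finset.Ico (j + 1) (M + 1), L i (s + ((((i : ℝ) - j) * u : ℝ) : ℂ)) ≠ 0 :=
      Finset.prod_ne_zero_iff.2 fun i hi => hne i (by have := (Finset.mem_Ico.1 hi).2; omega)
    generalize (∏ i ∈ Finset.range j, L i (s + ((((i : ℝ) - j) * u : ℝ) : ℂ))) = P1 at n1 ⊢
    generalize (∏ i ∈ Finset.Ico (j + 1) (M + 1), L i (s + ((((i : ℝ) - j) * u : ℝ) : ℂ))) = P2
      at n2 ⊢
    field_simp

/-! ### Gluing -/

theorem glue {L : ℂ → ℂ} {σ0 : ℝ} (hL : AnalyticOnNhd ℂ L {s | σ0 < s.re})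
    (h : ∀ k : ℕ, ∃ (Λ : ℂ → ℂ) (σ : ℝ), (∀ s : ℂ, -(k : ℝ) < s.re → MeromorphicAt Λ s) ∧
      ∀ s : ℂ, σ < s.re → L s = Λ s) : Continues L := by
  choose Λ σ hm he using h
  set U : ℕ → Set ℂ := fun k => {s | -(k : ℝ) < s.re} with hU
  set M : ℕ → ℂ → ℂ := fun k => toMeromorphicNFOn (Λ k) (U k) with hM
  have hmU : ∀ k, MeromorphicOn (Λ k) (U k) := fun k s hs => hm k s hs
  have hconn : ∀ k, IsConnected (U k) := by
    intro k
    refine ⟨⟨0 + 1, ?_⟩, (convex_halfSpace_re_gt _).isPreconnected⟩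
    show -(k : ℝ) < (0 + 1 : ℂ).re
    simp
    have : (0 : ℝ) ≤ k := by positivity
    linarith
  have hmono : ∀ {k l : ℕ}, k ≤ l → U k ⊆ U l := by
    intro k l hkl s hs
    have hs' : -(k : ℝ) < s.re := hs
    show -(l : ℝ) < s.re
    have : (k : ℝ) ≤ l := by exact_mod_cast hkl
    linarith
  have hev : ∀ {k l : ℕ}, k ≤ l → ∀ s ∈ U k, Λ k =ᶠ[𝓝[≠] s] Λ l := by
    intro k l hkl s hs
    have hf : MeromorphicOn (fun s => Λ k s - Λ l s) (U k) := fun s hs =>
      (hmU k s hs).sub (hmU l s (hmono hkl hs))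
    set x : ℝ := max 0 (max (σ k) (σ l)) + 1 with hx
    have hx0 : (0 : ℝ) < x := by
      have := le_max_left 0 (max (σ k) (σ l))
      linarith
    have hxk : σ k < x := by
      have h1 := le_max_left (σ k) (σ l)
      have h2 := le_max_right 0 (max (σ k) (σ l))
      linarith
    have hxl : σ l < x := by
      have h1 := le_max_right (σ k) (σ l)
      have h2 := le_max_right 0 (max (σ k) (σ l))
      linarith
    have hxU : (x : ℂ) ∈ U k := by
      show -(k : ℝ) < (x : ℂ).re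
      rw [Complex.ofReal_re]
      have : (0 : ℝ) ≤ k := by positivity
      linarith
    have htop : meromorphicOrderAt (fun s => Λ k s - Λ l s) (x : ℂ) = ⊤ := by
      rw [meromorphicOrderAt_eq_top_iff]
      refine eventually_nhdsWithin_of_eventually_nhds ?_
      have hmem : {s : ℂ | max (σ k) (σ l) < s.re} ∈ 𝓝 (x : ℂ) :=
        (isOpen_halfPlane _).mem_nhds (by
          show max (σ k) (σ l) < (x : ℂ).re
          rw [Complex.ofReal_re]
          exact max_lt hxk hxl)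
      filter_upwards [hmem] with z hz
      have hz' : max (σ k) (σ l) < z.re := hz
      rw [← he k z (lt_of_le_of_lt (le_max_left _ _) hz'),
        ← he l z (lt_of_le_of_lt (le_max_right _ _) hz'), sub_self]
    have hall := hf.exists_meromorphicOrderAt_ne_top_iff_forall (hconn k)
    have hs0 : meromorphicOrderAt (fun s => Λ k s - Λ l s) s = ⊤ := by
      by_contra hne
      exact (hall.1 ⟨⟨s, hs⟩, hne⟩ ⟨(x : ℂ), hxU⟩) htop
    rw [meromorphicOrderAt_eq_top_iff] at hs0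
    filter_upwards [hs0] with z hz
    exact sub_eq_zero.1 hz
  have hME : ∀ {k l : ℕ}, k ≤ l → ∀ s ∈ U k, M k s = M l s := by
    intro k l hkl s hs
    simp only [hM]
    rw [toMeromorphicNFOn_eq_toMeromorphicNFAt (hmU k) hs,
      toMeromorphicNFOn_eq_toMeromorphicNFAt (hmU l) (hmono hkl hs)]
    exact (toMeromorphicNFAt_eventuallyEq_nhds_congr (hev hkl s hs)).self_of_nhds
  have hex : ∀ s : ℂ, ∃ k : ℕ, s ∈ U k := by
    intro s
    obtain ⟨k, hk⟩ := exists_nat_gt (-s.re)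
    exact ⟨k, by show -(k : ℝ) < s.re; linarith⟩
  choose κ hκ using hex
  have hall : ∀ (s : ℂ) (k : ℕ), s ∈ U k → M (κ s) s = M k s := by
    intro s k hs
    rcases le_total (κ s) k with h1 | h1
    · exact hME h1 s (hκ s)
    · exact (hME h1 s hs).symm
  refine ⟨fun s => M (κ s) s, max σ0 (max 0 (σ 0)), fun s => ?_, fun s hs => ?_⟩
  · have h1 : (fun s => M (κ s) s) =ᶠ[𝓝 s] M (κ s) := by
      filter_upwards [(isOpen_halfPlane (-((κ s : ℕ) : ℝ))).mem_nhds (hκ s)] with z hz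
      exact hall z (κ s) hz
    have h2 : MeromorphicAt (M (κ s)) s :=
      (meromorphicNFOn_toMeromorphicNFOn (Λ (κ s)) (U (κ s)) (hκ s)).meromorphicAt
    exact h2.congr (h1.symm.filter_mono nhdsWithin_le_nhds)
  · have hs0 : σ0 < s.re := lt_of_le_of_lt (le_max_left _ _) hs
    have hs1 : 0 < s.re := lt_of_le_of_lt ((le_max_left _ _).trans (le_max_right _ _)) hs
    have hs2 : σ 0 < s.re := lt_of_le_of_lt ((le_max_right _ _).trans (le_max_right _ _)) hs
    have hsU : s ∈ U 0 := by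
      show -((0 : ℕ) : ℝ) < s.re
      simpa using hs1
    simp only
    rw [hall s 0 hsU]
    simp only [hM]
    rw [toMeromorphicNFOn_eq_toMeromorphicNFAt (hmU 0) hsU]
    have h3 : AnalyticAt ℂ (Λ 0) s := by
      refine (hL s hs0).congr ?_
      filter_upwards [(isOpen_halfPlane (σ 0)).mem_nhds hs2] with z hz
      exact he 0 z hz
    rw [toMeromorphicNFAt_eq_self.2 h3.meromorphicNFAt]
    exact he 0 s hs2

lemma Continues.comp_add {L : ℂ → ℂ} (h : Continues L) (c : ℝ) :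
    Continues (fun s => L (s + c)) := by
  obtain ⟨Λ, σ, h1, h2⟩ := h
  refine ⟨fun s => Λ (s + c), σ - c, fun s => ?_, fun s hs => h2 _ ?_⟩
  · exact (h1 (s + c)).comp_analyticAt (g := fun s : ℂ => s + (c : ℂ)) (by fun_prop)
  · rw [Complex.add_re, Complex.ofReal_re]
    linarith

theorem continues_of_spinProduct {L : ℂ → ℂ}
    (hc : ∀ n, 1 ≤ n → ∀ A ∈ 𝒮 n, Continues (LS S A (spin n)))
    (hA : ∃ σ0 : ℝ, AnalyticOnNhd ℂ L {s | σ0 < s.re}) (hL : SpinProduct S 𝒮 L) :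
    Continues L := by
  obtain ⟨σ0, hA⟩ := hA
  refine glue hA fun k => ?_
  obtain ⟨r, N, A, c, e, E, σ, h1, h2, h3, h4⟩ := hL (k : ℝ)
  have h5 : ∀ i, Continues (fun s => LS S (A i) (spin (N i)) (s + c i)) := fun i =>
    Continues.comp_add (hc (N i) (h1 i).1 (A i) (h1 i).2) (c i)
  choose Λ τ h6 h7 using h5
  have h8 : ∃ T : ℝ, σ ≤ T ∧ ∀ i, τ i ≤ T := by
    refine ⟨max σ (∑ i, |τ i|), le_max_left _ _, fun i => ?_⟩
    exact ((le_abs_self _).trans (Finset.single_le_sum (f := fun i => |τ i|)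
      (fun _ _ => abs_nonneg _) (Finset.mem_univ i))).trans (le_max_right _ _)
  obtain ⟨T, hT1, hT2⟩ := h8
  refine ⟨fun s => E s * ∏ i, Λ i s ^ e i, T, fun s hs => ?_, fun s hs => ?_⟩
  · exact ((h2 s hs).meromorphicAt).mul
      (MeromorphicAt.fun_prod fun i _ => (h6 i s).zpow (e i))
  · rw [h4 s (lt_of_le_of_lt hT1 hs)]
    congr 1
    refine Finset.prod_congr rfl fun i _ => ?_
    rw [← h7 i s (lt_of_le_of_lt (hT2 i) hs)]

/-- **The continuation statement follows from the product statement.** -/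
theorem stmCont_of_stmMain (h : StmMain) : StmCont := fun S 𝒮 𝒢 hcl hc n A hA m hm => by
  obtain ⟨σ0, h1, _⟩ := LS_facts (hcl.tame n A hA) m
  exact continues_of_spinProduct hc ⟨σ0, h1⟩ (h S 𝒮 𝒢 hcl n A hA m hm)

end Pool.Agent.V8H25.SP
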