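import Pool.Agent.V8H25.SP.Def2

/-!
# The representation ring of `GSpin(2n+1) × GL(m)` is the tensor product
-/

set_option autoImplicit false
set_option linter.unusedSectionVars false

namespace Pool.Agent.V8H25.SP

open Pool.Agent.V8H32.SP

variable {n m : ℕ}

/-- inclusion of the first factor -/
noncomputable def inl2 (n m : ℕ) : Rep n →+* Rep2 n m :=
  AddMonoidAlgebra.mapDomainRingHom ℤ (AddMonoidHom.inl (ℤ × (Fin n → ℤ)) (Fin m → ℤ))

/-- inclusion of the second factor -/
noncomputable def inr2 (n m : ℕ) : AddMonoidAlgebra ℤ (Fin m → ℤ) →+* Rep2 n m :=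
  AddMonoidAlgebra.mapDomainRingHom ℤ (AddMonoidHom.inr (ℤ × (Fin n → ℤ)) (Fin m → ℤ))

lemma inl2_single (w : ℤ × (Fin n → ℤ)) (a : ℤ) :
    inl2 n m (AddMonoidAlgebra.single w a) = AddMonoidAlgebra.single (w, 0) a := by
  unfold inl2
  rw [AddMonoidAlgebra.mapDomainRingHom_apply, AddMonoidAlgebra.mapDomain_single]
  rfl

lemma inr2_single (l : Fin m → ℤ) (a : ℤ) :
    inr2 n m (AddMonoidAlgebra.single l a) = AddMonoidAlgebra.single (0, l) a := by
  unfold inr2
  rw [AddMonoidAlgebra.mapDomainRingHom_apply, AddMonoidAlgebra.mapDomain_single]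
  rfl

lemma coeff_box (f : Rep n) (g : AddMonoidAlgebra ℤ (Fin m → ℤ)) (w : ℤ × (Fin n → ℤ))
    (l : Fin m → ℤ) : (inl2 n m f * inr2 n m g).coeff (w, l) = f.coeff w * g.coeff l := by
  classical
  induction f using AddMonoidAlgebra.induction_linear with
  | zero => simp
  | add x y hx hy =>
    rw [map_add, add_mul, AddMonoidAlgebra.coeff_add, AddMonoidAlgebra.coeff_add,
      Finsupp.add_apply, Finsupp.add_apply, hx, hy, add_mul]
  | single w0 a =>
    induction g using AddMonoidAlgebra.induction_linear with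
    | zero => simp
    | add x y hx hy =>
      rw [map_add, mul_add, AddMonoidAlgebra.coeff_add, AddMonoidAlgebra.coeff_add,
        Finsupp.add_apply, Finsupp.add_apply, hx, hy, mul_add]
    | single l0 b =>
      rw [inl2_single, inr2_single, AddMonoidAlgebra.single_mul_single,
        AddMonoidAlgebra.coeff_single, AddMonoidAlgebra.coeff_single,
        AddMonoidAlgebra.coeff_single]
      simp only [Prod.mk_add_mk, add_zero, zero_add]
      rw [Finsupp.single_apply, Finsupp.single_apply, Finsupp.single_apply]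
      by_cases h1 : w0 = w
      · by_cases h2 : l0 = l
        · rw [if_pos (by rw [h1, h2]), if_pos h1, if_pos h2]
        · rw [if_neg (fun h => h2 (Prod.mk.inj h).2), if_neg h2, mul_zero]
      · rw [if_neg (fun h => h1 (Prod.mk.inj h).1), if_neg h1, zero_mul]

open Classical in
/-- the orbit of a weight of `GL(m)` -/
noncomputable def orb (l : Fin m → ℤ) : Finset (Fin m → ℤ) :=
  Finset.univ.image fun τ : Equiv.Perm (Fin m) => l ∘ τ

lemma mem_orb {l l' : Fin m → ℤ} : l' ∈ orb l ↔ ∃ τ : Equiv.Perm (Fin m), l ∘ τ = l' := by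
  classical
  unfold orb
  simp

lemma self_mem_orb (l : Fin m → ℤ) : l ∈ orb l := mem_orb.2 ⟨1, by ext; simp⟩

lemma comp_mem_orb {l l' : Fin m → ℤ} (τ : Equiv.Perm (Fin m)) : l' ∘ τ ∈ orb l ↔ l' ∈ orb l := by
  rw [mem_orb, mem_orb]
  constructor
  · rintro ⟨σ, h⟩
    refine ⟨τ.symm.trans σ, ?_⟩
    funext i
    have := congrFun h (τ.symm i)
    simpa using this
  · rintro ⟨σ, h⟩
    refine ⟨τ.trans σ, ?_⟩
    funext i
    have := congrFun h (τ i)
    simpa using this

/-- the orbit sum -/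
noncomputable def osum (l : Fin m → ℤ) : AddMonoidAlgebra ℤ (Fin m → ℤ) :=
  ∑ l' ∈ orb l, AddMonoidAlgebra.single l' 1

open Classical in
lemma osum_coeff (l l' : Fin m → ℤ) : (osum l).coeff l' = if l' ∈ orb l then 1 else 0 := by
  unfold osum
  rw [AddMonoidAlgebra.coeff_sum, Finsupp.finsetSum_apply]
  simp_rw [AddMonoidAlgebra.coeff_single, Finsupp.single_apply]
  rw [Finset.sum_ite_eq']

lemma osum_isSym (l : Fin m → ℤ) : IsSym (osum l) := by
  classical
  intro τ l'
  rw [osum_coeff, osum_coeff]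
  simp only [comp_mem_orb]

/-- the coefficients at a weight of `GL(m)` -/
noncomputable def slice (ρ : Rep2 n m) (l : Fin m → ℤ) : Rep n :=
  AddMonoidAlgebra.ofCoeff (ρ.coeff.comapDomain (fun w => (w, l))
    (fun _ _ _ _ h => (Prod.mk.inj h).1))

lemma slice_coeff (ρ : Rep2 n m) (l : Fin m → ℤ) (w : ℤ × (Fin n → ℤ)) :
    (slice ρ l).coeff w = ρ.coeff (w, l) := rfl

lemma slice_isW {ρ : Rep2 n m} (h : IsW2 ρ) (l : Fin m → ℤ) : IsW (slice ρ l) :=
  ⟨fun σ w => by rw [slice_coeff, slice_coeff]; exact h.1 σ w l,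
    fun i w => by rw [slice_coeff, slice_coeff]; exact h.2.1 i w l⟩

lemma orb_coeff {ρ : Rep2 n m} (h : IsW2 ρ) {l l' : Fin m → ℤ} (hl : l' ∈ orb l)
    (w : ℤ × (Fin n → ℤ)) : ρ.coeff (w, l') = ρ.coeff (w, l) := by
  obtain ⟨τ, rfl⟩ := mem_orb.1 hl
  exact h.2.2 τ w l

/-- **Decomposition.** -/
theorem exists_dec : ∀ (N : ℕ) (ρ : Rep2 n m), IsW2 ρ →
    (ρ.coeff.support.image Prod.snd).card ≤ N →
    ∃ (r : ℕ) (f : Fin r → Rep n) (g : Fin r → AddMonoidAlgebra ℤ (Fin m → ℤ)),
      (∀ k, IsW (f k)) ∧ (∀ k, IsSym (g k)) ∧ ρ = ∑ k, inl2 n m (f k) * inr2 n m (g k) := by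
  classical
  intro N
  induction N with
  | zero =>
    intro ρ _ hc
    refine ⟨0, Fin.elim0, Fin.elim0, fun k => k.elim0, fun k => k.elim0, ?_⟩
    rw [Nat.le_zero, Finset.card_eq_zero, Finset.image_eq_empty, Finsupp.support_eq_empty] at hc
    rw [Finset.univ_eq_empty, Finset.sum_empty]
    exact AddMonoidAlgebra.coeff_injective hc
  | succ N ih =>
    intro ρ hρ hc
    by_cases h0 : (ρ.coeff.support.image Prod.snd).Nonempty
    · obtain ⟨l, hl⟩ := h0
      set ρ' : Rep2 n m := ρ - inl2 n m (slice ρ l) * inr2 n m (osum l) with hρ'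
      have hcoef : ∀ w l', ρ'.coeff (w, l') = if l' ∈ orb l then 0 else ρ.coeff (w, l') := by
        intro w l'
        rw [hρ', AddMonoidAlgebra.coeff_sub, Finsupp.sub_apply, coeff_box, slice_coeff, osum_coeff]
        split_ifs with h1
        · rw [mul_one, orb_coeff hρ h1 w, sub_self]
        · rw [mul_zero, sub_zero]
      have hW : IsW2 ρ' := by
        refine ⟨fun σ w l' => ?_, fun i w l' => ?_, fun τ w l' => ?_⟩
        · rw [hcoef, hcoef, hρ.1 σ w l']
        · rw [hcoef, hcoef, hρ.2.1 i w l']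
        · rw [hcoef, hcoef, hρ.2.2 τ w l']
          simp only [comp_mem_orb]
      have hsub : ρ'.coeff.support.image Prod.snd ⊆
          (ρ.coeff.support.image Prod.snd).erase l := by
        intro l' hl'
        obtain ⟨⟨w, l''⟩, hx, rfl⟩ := Finset.mem_image.1 hl'
        have h1 := Finsupp.mem_support_iff.1 hx
        rw [hcoef] at h1
        by_cases h2 : l'' ∈ orb l
        · rw [if_pos h2] at h1
          exact absurd rfl h1
        · rw [if_neg h2] at h1
          refine Finset.mem_erase.2 ⟨?_, Finset.mem_image.2 ⟨(w, l''),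
            Finsupp.mem_support_iff.2 h1, rfl⟩⟩
          rintro rfl
          exact h2 (self_mem_orb _)
      have hcard : (ρ'.coeff.support.image Prod.snd).card ≤ N := by
        have h1 := Finset.card_le_card hsub
        rw [Finset.card_erase_of_mem hl] at h1
        omega
      obtain ⟨r, f, g, hf, hg, he⟩ := ih ρ' hW hcard
      refine ⟨r + 1, Fin.cons (slice ρ l) f, Fin.cons (osum l) g, fun k => ?_, fun k => ?_, ?_⟩
      · refine Fin.cases ?_ (fun i => ?_) k
        · exact slice_isW hρ l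
        · exact hf i
      · refine Fin.cases ?_ (fun i => ?_) k
        · exact osum_isSym l
        · exact hg i
      · rw [Fin.sum_univ_succ]
        simp only [Fin.cons_zero, Fin.cons_succ]
        rw [← he, hρ']
        ring
    · rw [Finset.not_nonempty_iff_eq_empty, Finset.image_eq_empty,
        Finsupp.support_eq_empty] at h0
      refine ⟨0, Fin.elim0, Fin.elim0, fun k => k.elim0, fun k => k.elim0, ?_⟩
      rw [Finset.univ_eq_empty, Finset.sum_empty]
      exact AddMonoidAlgebra.coeff_injective h0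

theorem dec {ρ : Rep2 n m} (h : IsW2 ρ) :
    ∃ (r : ℕ) (f : Fin r → Rep n) (g : Fin r → AddMonoidAlgebra ℤ (Fin m → ℤ)),
      (∀ k, IsW (f k)) ∧ (∀ k, IsSym (g k)) ∧ ρ = ∑ k, inl2 n m (f k) * inr2 n m (g k) := by
  classical
  exact exists_dec _ ρ h le_rfl

end Pool.Agent.V8H25.SP
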