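import Pool.Agent.V8H32.SP.Defs

/-!
# Classes of representations closed under parabolic induction
-/

set_option autoImplicit false

namespace Pool.Agent.V8H25.SP

open Pool.Agent.V8H32.SP

/-- Classes `𝒮 n` of representations of `GSp(2n)` (`n ≥ 0`, `GSp(0) = GL(1)`) and `𝒢 m` of
representations of `GL(m)`, unramified outside `S` and given by their Satake parameters, which are
closed under parabolic induction: for `π ∈ 𝒮 n`, `σ ∈ 𝒢 m` and `u ≥ 0` the representations of
`GSp(2(n+m))` induced from `π ⊗ σ|det|^u` are in `𝒮 (n+m)`. By a theorem of Langlands the classes of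
all automorphic representations unramified outside `S` have this property. -/
structure IndClosed (S : Finset Nat.Primes) (𝒮 : ∀ n, Set (Par n)) (𝒢 : ∀ m, Set (GPar m)) :
    Prop where
  tame : ∀ n, ∀ A ∈ 𝒮 n, Tame S A
  gtame : ∀ m, ∀ b ∈ 𝒢 m, GTame S b
  ind : ∀ n m, ∀ A ∈ 𝒮 n, ∀ b ∈ 𝒢 m, ∀ u : ℝ, 0 ≤ u → A.ind b u ∈ 𝒮 (n + m)

/-- The standard transfer of the representation `π` to `GL(2n+1)` is in `𝒢 (2n+1)`, the twists of
`π` by the powers of its central character are in `𝒮 n`, and these powers are in `𝒮 0`. For the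
classes of automorphic representations all `π` have this property (for the transfer: Gelbart and
Jacquet for `n = 1`, Arthur in general). -/
def Transfers (𝒮 : ∀ n, Set (Par n)) (𝒢 : ∀ m, Set (GPar m)) {n : ℕ} (A : Par n) : Prop :=
  A.std ∈ 𝒢 (1 + n + n) ∧ ∀ k : ℤ, A.twist k ∈ 𝒮 n ∧ A.central k ∈ 𝒮 0

end Pool.Agent.V8H25.SP
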