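import Pool.Agent.V8H25.SP.Alg
import Pool.Agent.V8H61.SP.Gen
import Pool.Agent.V8H25.SP.Def

/-!
# All automorphic L-functions of `GSp(2n)` are products of spin L-functions
-/

set_option autoImplicit false
set_option linter.unusedSectionVars false

namespace Pool.Agent.V8H25.SP

open Filter Topology
open Pool.Agent.V8H32.SP

variable {S : Finset Nat.Primes} {𝒮 : ∀ n, Set (Par n)} {𝒢 : ∀ m, Set (GPar m)}

/-- the tensor product of exterior powers -/
noncomputable def GE (l : List ((Σ m, GPar m) × ℕ)) (p : Nat.Primes) : D :=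
  (l.map fun x => gext x.1.2 x.2 p).prod

lemma GE_nil (p : Nat.Primes) : GE [] p = 1 := rfl

lemma GE_cons (x : (Σ m, GPar m) × ℕ) (l : List ((Σ m, GPar m) × ℕ)) (p : Nat.Primes) :
    GE (x :: l) p = gext x.1.2 x.2 p * GE l p := by
  unfold GE
  rw [List.map_cons, List.prod_cons]

lemma TDD_GE (h𝒢 : ∀ m, ∀ b ∈ 𝒢 m, GTame S b) {l : List ((Σ m, GPar m) × ℕ)}
    (hl : ∀ x ∈ l, x.1.2 ∈ 𝒢 x.1.1) : TDD S (GE l) :=
  TDD.list_prod l fun x hx => TDD_gext (h𝒢 _ _ (hl x hx)) x.2

lemma coeff_mul_pt (X : D) (y : ℂ) :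
    (X * MonoidAlgebra.single y 1).coeff = X.coeff.mapDomain (fun z => z * y) := by
  induction X using MonoidAlgebra.induction_linear with
  | zero =>
    rw [zero_mul, MonoidAlgebra.coeff_zero, Finsupp.mapDomain_zero]
  | add x y hx hy =>
    rw [add_mul, MonoidAlgebra.coeff_add, MonoidAlgebra.coeff_add, Finsupp.mapDomain_add, hx, hy]
  | single z k =>
    rw [MonoidAlgebra.single_mul_single, MonoidAlgebra.coeff_single,
      MonoidAlgebra.coeff_single, Finsupp.mapDomain_single, mul_one]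

/-- one step: exterior powers for the Levi factor by separation -/
lemma step (hcl : IndClosed S 𝒮 𝒢) {n : ℕ} {A : Par n} (hA : A ∈ 𝒮 n) {m : ℕ} {b : GPar m}
    (hb : b ∈ 𝒢 m) {T : Nat.Primes → D} (hT : TDD S T)
    (h : ∀ u : ℝ, 0 ≤ u → SpinProduct S 𝒮 (LDD S fun p => spD (A.ind b u) p * T p)) (j : ℕ) :
    SpinProduct S 𝒮 (LDD S fun p => spD A p * (gext b j p * T p)) := by
  classical
  have hTA := hcl.tame n A hA
  have hTb := hcl.gtame m b hb
  have hTD : ∀ j, TDD S fun p => spD A p * (gext b j p * T p) := fun j =>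
    (TDD_spD hTA).mul ((TDD_gext hTb j).mul hT)
  rcases Nat.lt_or_ge m j with hj | hj
  · refine Q_congr (L := fun _ => 1) Q_one (σ0 := 0) fun s _ => ?_
    have e : LDD S (fun p => spD A p * (gext b j p * T p)) s = LDD S (fun _ => 0) s := by
      refine LDD_congr (fun p _ => ?_) s
      rw [gext_gt b hj, zero_mul, mul_zero]
    rw [e]
    exact LD_zero S s
  · have h1 : ∀ j, ∃ σ : ℝ, AnalyticOnNhd ℂ (LDD S fun p => spD A p * (gext b j p * T p))
        {s : ℂ | σ < s.re} ∧ ∀ s : ℂ, σ < s.re →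
          LDD S (fun p => spD A p * (gext b j p * T p)) s ≠ 0 := fun j => LD_facts (hTD j)
    choose σ h2 h3 using h1
    obtain ⟨τ, hτ⟩ : ∃ τ : ℝ, ∀ j, j ≤ m → σ j ≤ τ := by
      refine ⟨∑ i ∈ Finset.range (m + 1), |σ i|, fun j hj => (le_abs_self _).trans ?_⟩
      exact Finset.single_le_sum (f := fun i => |σ i|) (fun _ _ => abs_nonneg _)
        (Finset.mem_range.2 (by omega))
    refine separation (σ := τ) (M := m)
      (L := fun j => LDD S fun p => spD A p * (gext b j p * T p)) (fun j hj => ⟨fun s hs => ?_,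
        fun s hs => h3 j s (lt_of_le_of_lt (hτ j hj) hs)⟩) (fun u hu => ?_) j hj
    · exact h2 j s (lt_of_le_of_lt (hτ j hj) hs)
    · obtain ⟨σ', h4⟩ := LD_finset_sum (S := S) (Finset.range (m + 1))
        (c := fun j => shD ((j : ℝ) * u) fun p => (spD A p * (gext b j p * T p)).coeff)
        (fun j _ => TD.shD (hTD j) _)
      refine Q_congr (h u hu) (σ0 := σ') fun s hs => ?_
      have h5 : ∀ j, LDD S (fun p => spD A p * (gext b j p * T p)) (s + ((j : ℝ) * u : ℝ)) =
          LD S (shD ((j : ℝ) * u) fun p => (spD A p * (gext b j p * T p)).coeff) s := by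
        intro j
        rw [LD_shD]
        rfl
      rw [Finset.prod_congr rfl fun j _ => h5 j, ← h4 s hs]
      refine LD_congr (fun p _ => ?_) s
      show _ = (spD (A.ind b u) p * T p).coeff
      rw [spD_ind, Finset.sum_mul, MonoidAlgebra.coeff_sum]
      refine Finset.sum_congr rfl fun j _ => ?_
      unfold shD
      have h6 : pt ((((p : ℕ) : ℂ) ^ (-(u : ℂ))) ^ j) * (spD A p * gext b j p) * T p =
          (spD A p * (gext b j p * T p)) * MonoidAlgebra.single
            (((p : ℕ) : ℂ) ^ (-(((j : ℝ) * u : ℝ) : ℂ))) 1 := by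
        have h7 : (((p : ℕ) : ℂ) ^ (-(u : ℂ))) ^ j = ((p : ℕ) : ℂ) ^ (-(((j : ℝ) * u : ℝ) : ℂ)) := by
          rw [← Complex.cpow_nat_mul]
          congr 1
          push_cast
          ring
        rw [h7]
        unfold pt
        ring
      rw [h6, coeff_mul_pt]

/-- **The main induction.** -/
theorem main_ind (hcl : IndClosed S 𝒮 𝒢) : ∀ (l : List ((Σ m, GPar m) × ℕ)),
    (∀ x ∈ l, x.1.2 ∈ 𝒢 x.1.1) → ∀ n, 1 ≤ n → ∀ A ∈ 𝒮 n,
    SpinProduct S 𝒮 (LDD S fun p => spD A p * GE l p) := by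
  intro l
  induction l with
  | nil =>
    intro _ n hn A hA
    obtain ⟨σ, h1⟩ := LS_eq_LD (hcl.tame n A hA) (spin n)
    refine Q_congr (Q_spin hn hA) (σ0 := σ) fun s hs => ?_
    rw [h1 s hs]
    refine LD_congr (fun p _ => ?_) s
    show (spD A p * GE [] p).coeff = dv A (spin n) p
    rw [GE_nil, mul_one, dv_spin]
  | cons x l ih =>
    intro hl n hn A hA
    have hl' : ∀ y ∈ l, y.1.2 ∈ 𝒢 y.1.1 := fun y hy => hl y (List.mem_cons_of_mem _ hy)
    have hx : x.1.2 ∈ 𝒢 x.1.1 := hl x List.mem_cons_self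
    simp_rw [GE_cons]
    refine step hcl hA hx (TDD_GE hcl.gtame hl') (fun u hu => ?_) x.2
    exact ih hl' (n + x.1.1) (by omega) _ (hcl.ind n x.1.1 A hA x.1.2 hx u hu)

/-- the same for all `n` -/
theorem main_ind_all (hcl : IndClosed S 𝒮 𝒢) (l : List ((Σ m, GPar m) × ℕ))
    (hl : ∀ x ∈ l, x.1.2 ∈ 𝒢 x.1.1) {m : ℕ} (hm : 1 ≤ m) {b : GPar m} (hs : b ∈ 𝒢 m)
    (n : ℕ) (A : Par n) (hA : A ∈ 𝒮 n) :
    SpinProduct S 𝒮 (LDD S fun p => spD A p * GE l p) := by
  classical
  have h1 := step hcl hA hs (TDD_GE hcl.gtame hl) (fun u hu =>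
    main_ind hcl l hl (n + m) (by omega) _ (hcl.ind n _ A hA _ hs u hu)) 0
  refine Q_congr h1 (σ0 := 0) fun s _ => ?_
  refine LDD_congr (fun p _ => ?_) s
  have : gext b 0 p = 1 := by
    unfold gext
    rw [Finset.powersetCard_zero, Finset.sum_singleton, Finset.prod_empty, pt_one]
  rw [this, one_mul]

lemma spD_twist {n : ℕ} (A : Par n) (k : ℤ) (p : Nat.Primes) :
    spD (A.twist k) p = pt (A.simv p ^ k) * spD A p := by
  unfold spD Par.twist
  simp only
  rw [← pt_mul]
  ring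

lemma spD_central {n : ℕ} (A : Par n) (k : ℤ) (p : Nat.Primes) :
    spD (A.central k) p = pt (A.simv p ^ k) := by
  unfold spD Par.central
  simp

/-- the list of exterior powers of the standard transfer -/
noncomputable def stdl {n : ℕ} (A : Par n) (J : List ℕ) : List ((Σ m, GPar m) × ℕ) :=
  J.map fun j => (⟨1 + n + n, A.std⟩, j)

lemma twist_zero {n : ℕ} (A : Par n) : A.twist 0 = A := by
  unfold Par.twist
  simp

/-- **Main theorem.** -/
theorem main (hcl : IndClosed S 𝒮 𝒢) {n : ℕ} {A : Par n} (hA : Transfers 𝒮 𝒢 A) {m : Rep n}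
    (hm : IsW m) : SpinProduct S 𝒮 (LS S A m) := by
  classical
  obtain ⟨hstd, htw⟩ := hA
  have hT : Tame S A := by
    have := (htw 0).1
    rw [twist_zero] at this
    exact hcl.tame n A this
  obtain ⟨r, c, ε, J, e, hmE⟩ := Pool.Agent.V8H61.SP.stmRing n m hm
  set X : Fin r → Nat.Primes → D := fun k p =>
    pt (A.simv p ^ c k) * (if ε k then spD A p else 1) * GE (stdl A (J k)) p with hX
  have hmem : ∀ k, ∀ x ∈ stdl A (J k), x.1.2 ∈ 𝒢 x.1.1 := by
    intro k x hx
    obtain ⟨j, _, rfl⟩ := List.mem_map.1 hx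
    exact hstd
  have hQ : ∀ k, SpinProduct S 𝒮 (LDD S (X k)) ∧ TDD S (X k) := by
    intro k
    by_cases hk : ε k = true
    · have h1 := main_ind_all hcl _ (hmem k) (by omega) hstd n _ (htw (c k)).1
      have h2 := (TDD_spD (hcl.tame n _ (htw (c k)).1)).mul
        (TDD_GE hcl.gtame (hmem k))
      have e1 : ∀ p, spD (A.twist (c k)) p * GE (stdl A (J k)) p = X k p := by
        intro p
        simp only [hX, hk, if_true]
        rw [spD_twist]
      exact ⟨Q_congr h1 (σ0 := 0) fun s _ => LDD_congr (fun p _ => (e1 p).symm) s,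
        TDD.congr h2 fun p _ => e1 p⟩
    · have h1 := main_ind_all hcl _ (hmem k) (by omega) hstd 0 _ (htw (c k)).2
      have h2 := (TDD_spD (hcl.tame 0 _ (htw (c k)).2)).mul
        (TDD_GE hcl.gtame (hmem k))
      have e1 : ∀ p, spD (A.central (c k)) p * GE (stdl A (J k)) p = X k p := by
        intro p
        simp only [hX, if_neg hk]
        rw [spD_central, mul_one]
      exact ⟨Q_congr h1 (σ0 := 0) fun s _ => LDD_congr (fun p _ => (e1 p).symm) s,
        TDD.congr h2 fun p _ => e1 p⟩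
  have hev : ∀ p, p ∉ S → dv A m p = ∑ k, e k • (X k p).coeff := by
    intro p hp
    rw [← evD_coeff hT hp, hmE, map_sum, MonoidAlgebra.coeff_sum]
    refine Finset.sum_congr rfl fun k _ => ?_
    rw [map_zsmul, MonoidAlgebra.coeff_smul]
    congr 2
    rw [map_mul, map_mul, evD_sim, map_list_prod]
    simp only [hX]
    congr 1
    · congr 1
      split_ifs
      · exact evD_spin hT hp
      · exact map_one _
    · unfold GE stdl
      rw [List.map_map, List.map_map]
      congr 1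
      refine List.map_congr_left fun j _ => ?_
      simp only [Function.comp]
      exact evD_ext hT hp j
  obtain ⟨σ1, h1⟩ := LS_eq_LD hT m
  have h2 : ∀ k, TD S (fun p => e k • (X k p).coeff) := fun k => TD.zsmul (hQ k).2 (e k)
  obtain ⟨σ2, h3⟩ := LD_finset_sum (S := S) Finset.univ (c := fun k p => e k • (X k p).coeff)
    (fun k _ => h2 k)
  have h4 : ∀ k, ∃ σ : ℝ, ∀ s : ℂ, σ < s.re →
      LD S (fun p => e k • (X k p).coeff) s = LD S (fun p => (X k p).coeff) s ^ e k := fun k =>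
    LD_zsmul (hQ k).2 (e k)
  choose σ3 h5 using h4
  obtain ⟨τ, hτ⟩ : ∃ τ : ℝ, ∀ k, σ3 k ≤ τ := by
    refine ⟨∑ i, |σ3 i|, fun j => (le_abs_self _).trans ?_⟩
    exact Finset.single_le_sum (f := fun i => |σ3 i|) (fun _ _ => abs_nonneg _)
      (Finset.mem_univ j)
  refine Q_congr (Q_finset_prod Finset.univ (L := fun k s => LDD S (X k) s ^ e k)
    fun k _ => Q_zpow (hQ k).1 (e k)) (σ0 := max τ (max σ1 σ2)) fun s hs => ?_
  simp only [max_lt_iff] at hs
  obtain ⟨s1, s2, s3⟩ := hs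
  rw [h1 s s2, LD_congr hev s, h3 s s3]
  refine Finset.prod_congr rfl fun k _ => ?_
  rw [h5 k s (lt_of_le_of_lt (hτ k) s1)]
  rfl

/-- **Continuation.** -/
theorem main_cont (hcl : IndClosed S 𝒮 𝒢)
    (hc : ∀ N, 1 ≤ N → ∀ B ∈ 𝒮 N, Continues (LS S B (spin N))) {n : ℕ} {A : Par n}
    (hA : Transfers 𝒮 𝒢 A) {m : Rep n} (hm : IsW m) : Continues (LS S A m) := by
  have hT : Tame S A := by
    have := (hA.2 0).1
    rw [twist_zero] at this
    exact hcl.tame n A this
  obtain ⟨σ0, h1, _⟩ := LS_facts hT m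
  exact continues_of_spinProduct hc ⟨σ0, h1⟩ (main hcl hA hm)

theorem stmMain : StmMain := fun _ _ _ hcl n A hA _ hm =>
  main ⟨hcl.tame, hcl.gtame, hcl.ind⟩ ⟨hcl.std n A hA, fun k => ⟨hcl.twist n A hA k,
    hcl.central n A hA k⟩⟩ hm

theorem stmCont : StmCont := stmCont_of_stmMain stmMain

end Pool.Agent.V8H25.SP
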