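import Pool.Agent.V8H25.SP.Dec
import Pool.Agent.V8H25.SP.Main

/-!
# All automorphic L-functions of `GSp(2n) × GL(m)` are products of spin L-functions
-/

set_option autoImplicit false
set_option linter.unusedSectionVars false

namespace Pool.Agent.V8H25.SP

open Filter Topology
open Pool.Agent.V8H32.SP
open Pool.Agent.V8H32.CF (lf)

variable {S : Finset Nat.Primes} {𝒮 : ∀ n, Set (Par n)} {𝒢 : ∀ m, Set (GPar m)}

/-! ### General Euler products of weights -/

open Classical in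
/-- Euler products of weights are Euler products of divisors. -/
theorem gen_eq_LD {X : Type} (ev : Nat.Primes → X → ℂ) (c : X →₀ ℤ)
    (h : ∃ C : ℝ, 0 ≤ C ∧ ∀ p, p ∉ S → ∀ x ∈ c.support, ‖ev p x‖ ≤ ((p : ℕ) : ℝ) ^ C) :
    TD S (fun p => c.mapDomain (ev p)) ∧ ∃ σ : ℝ, ∀ s : ℂ, σ < s.re →
      (∏' p : Nat.Primes, if p ∈ S then 1 else
        c.prod (fun x e => (1 - ev p x * ((p : ℕ) : ℂ) ^ (-s)) ^ (-e))) =
      LD S (fun p => c.mapDomain (ev p)) s := by
  obtain ⟨C, hC, h⟩ := h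
  refine ⟨⟨C, c.sum fun _ m => m.natAbs, hC, fun p hp => ⟨fun z hz => ?_, ?_⟩⟩,
    C + 1, fun s hs => ?_⟩
  · obtain ⟨w, hw, rfl⟩ := Finset.mem_image.1 (Finsupp.mapDomain_support hz)
    exact h p hp w hw
  · exact sum_mapDomain_le _ _
  · unfold LD
    refine tprod_congr fun p => ?_
    split_ifs with hp
    · rfl
    · rw [lf_mapDomain]
      intro w hw h0
      have h1 : ‖ev p w * ((p : ℕ) : ℂ) ^ (-s)‖ ≤ 1 / 2 := by
        rw [norm_mul, Complex.norm_natCast_cpow_of_pos p.2.pos]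
        calc ‖ev p w‖ * ((p : ℕ) : ℝ) ^ (-s).re ≤ ((p : ℕ) : ℝ) ^ C * ((p : ℕ) : ℝ) ^ (-s).re :=
              mul_le_mul_of_nonneg_right (h p hp w hw) (Real.rpow_nonneg (p_pos p).le _)
          _ = ((p : ℕ) : ℝ) ^ (-(s.re - C)) := by
              rw [← Real.rpow_add (p_pos p)]
              congr 1
              simp
              ring
          _ ≤ 1 / 2 := rpow_le_half' (by linarith)
      rw [← sub_eq_zero.1 h0, norm_one] at h1
      norm_num at h1

lemma norm_gev_le {m : ℕ} {b : GPar m} {p : Nat.Primes} {C : ℝ}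
    (h3 : ∀ i, ‖b p i‖ ≤ ((p : ℕ) : ℝ) ^ C ∧ ‖(b p i)⁻¹‖ ≤ ((p : ℕ) : ℝ) ^ C) (l : Fin m → ℤ) :
    ‖gev b p l‖ ≤ ((p : ℕ) : ℝ) ^ (C * ∑ i, ((l i).natAbs : ℝ)) := by
  unfold gev
  rw [norm_prod, Finset.mul_sum, Real.rpow_sum_of_pos (p_pos p)]
  exact Finset.prod_le_prod (fun _ _ => norm_nonneg _) fun i _ => norm_zpow_le (h3 i).1 (h3 i).2 _

lemma exists_bound2 {n m : ℕ} {A : Par n} {b : GPar m} (hA : Tame S A) (hb : GTame S b)
    (F : Finset ((ℤ × (Fin n → ℤ)) × (Fin m → ℤ))) :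
    ∃ C : ℝ, 0 ≤ C ∧ ∀ p, p ∉ S → ∀ x ∈ F, ‖A.ev p x.1 * gev b p x.2‖ ≤ ((p : ℕ) : ℝ) ^ C := by
  classical
  obtain ⟨C, hC, h⟩ := hA
  obtain ⟨C', hC', h'⟩ := hb
  refine ⟨∑ x ∈ F, (C * ((x.1.1.natAbs : ℝ) + ∑ i, ((x.1.2 i).natAbs : ℝ)) +
    C' * ∑ i, ((x.2 i).natAbs : ℝ)), by positivity, fun p hp x hx => ?_⟩
  obtain ⟨_, h2, h3, h4⟩ := h p hp
  have h5 := norm_ev_le h2 h3 (fun i => (h4 i).2) x.1
  have h6 := norm_gev_le (fun i => (h' p hp i).2) x.2
  rw [norm_mul]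
  calc ‖A.ev p x.1‖ * ‖gev b p x.2‖ ≤
      ((p : ℕ) : ℝ) ^ (C * ((x.1.1.natAbs : ℝ) + ∑ i, ((x.1.2 i).natAbs : ℝ))) *
        ((p : ℕ) : ℝ) ^ (C' * ∑ i, ((x.2 i).natAbs : ℝ)) :=
        mul_le_mul h5 h6 (norm_nonneg _) (Real.rpow_nonneg (p_pos p).le _)
    _ = ((p : ℕ) : ℝ) ^ (C * ((x.1.1.natAbs : ℝ) + ∑ i, ((x.1.2 i).natAbs : ℝ)) +
        C' * ∑ i, ((x.2 i).natAbs : ℝ)) := (Real.rpow_add (p_pos p) _ _).symm
    _ ≤ _ := by
        refine Real.rpow_le_rpow_of_exponent_le (by linarith [p_two p]) ?_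
        exact Finset.single_le_sum (f := fun x : (ℤ × (Fin n → ℤ)) × (Fin m → ℤ) =>
          C * ((x.1.1.natAbs : ℝ) + ∑ i, ((x.1.2 i).natAbs : ℝ)) +
            C' * ∑ i, ((x.2 i).natAbs : ℝ)) (fun x _ => by positivity) hx

/-- the divisor of a representation of the product -/
noncomputable def dv2 {n m : ℕ} (A : Par n) (b : GPar m) (ρ : Rep2 n m) (p : Nat.Primes) :
    ℂ →₀ ℤ := ρ.coeff.mapDomain (fun x => A.ev p x.1 * gev b p x.2)

theorem LS2_eq_LD {n m : ℕ} {A : Par n} {b : GPar m} (hA : Tame S A) (hb : GTame S b)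
    (ρ : Rep2 n m) : TD S (dv2 A b ρ) ∧ ∃ σ : ℝ, ∀ s : ℂ, σ < s.re →
      LS2 S A b ρ s = LD S (dv2 A b ρ) s :=
  gen_eq_LD (fun p (x : (ℤ × (Fin n → ℤ)) × (Fin m → ℤ)) => A.ev p x.1 * gev b p x.2) ρ.coeff
    (exists_bound2 hA hb _)

theorem LS2_facts {n m : ℕ} {A : Par n} {b : GPar m} (hA : Tame S A) (hb : GTame S b)
    (ρ : Rep2 n m) :
    ∃ σ : ℝ, AnalyticOnNhd ℂ (LS2 S A b ρ) {s : ℂ | σ < s.re} := by
  obtain ⟨h0, σ, h1⟩ := LS2_eq_LD hA hb ρ
  obtain ⟨σ', h2, h3⟩ := LD_facts h0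
  refine ⟨max σ σ', fun s hs => ?_⟩
  have hs' : max σ σ' < s.re := hs
  refine (h2 s (lt_of_le_of_lt (le_max_right _ _) hs')).congr ?_
  filter_upwards [(isOpen_halfPlane (max σ σ')).mem_nhds hs'] with w hw
  exact (h1 w (lt_of_le_of_lt (le_max_left _ _) hw)).symm

/-! ### Evaluation -/

lemma gev_add {m : ℕ} {b : GPar m} (hb : GTame S b) {p : Nat.Primes} (hp : p ∉ S)
    (l l' : Fin m → ℤ) : gev b p (l + l') = gev b p l * gev b p l' := by
  obtain ⟨C, _, h⟩ := hb
  unfold gev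
  simp_rw [Pi.add_apply]
  rw [Finset.prod_congr rfl fun i _ => zpow_add₀ (h p hp i).1 (l i) (l' i),
    Finset.prod_mul_distrib]

lemma gev_zero {m : ℕ} (b : GPar m) (p : Nat.Primes) : gev b p 0 = 1 := by
  unfold gev
  simp

/-- The values of the weights as a monoid homomorphism. -/
noncomputable def evM2 {n m : ℕ} {A : Par n} {b : GPar m} (hA : Tame S A) (hb : GTame S b)
    {p : Nat.Primes} (hp : p ∉ S) :
    Multiplicative ((ℤ × (Fin n → ℤ)) × (Fin m → ℤ)) →* D where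
  toFun x := pt (A.ev p x.toAdd.1 * gev b p x.toAdd.2)
  map_one' := by
    rw [toAdd_one, ← pt_one]
    congr 1
    rw [Prod.fst_zero, Prod.snd_zero, ev_zero, gev_zero, one_mul]
  map_mul' x y := by
    rw [toAdd_mul, Prod.fst_add, Prod.snd_add, ev_add hA hp, gev_add hb hp, pt_mul]
    congr 1
    ring

/-- The values of the weights as a homomorphism of rings. -/
noncomputable def evD2 {n m : ℕ} {A : Par n} {b : GPar m} (hA : Tame S A) (hb : GTame S b)
    {p : Nat.Primes} (hp : p ∉ S) : Rep2 n m →ₐ[ℤ] D :=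
  AddMonoidAlgebra.lift ℤ D _ (evM2 hA hb hp)

lemma evD2_single {n m : ℕ} {A : Par n} {b : GPar m} (hA : Tame S A) (hb : GTame S b)
    {p : Nat.Primes} (hp : p ∉ S) (x : (ℤ × (Fin n → ℤ)) × (Fin m → ℤ)) (k : ℤ) :
    evD2 hA hb hp (AddMonoidAlgebra.single x k) = k • pt (A.ev p x.1 * gev b p x.2) := by
  unfold evD2
  rw [AddMonoidAlgebra.lift_apply, AddMonoidAlgebra.coeff_single, Finsupp.sum_single_index
    (by rw [zero_smul])]
  rfl

lemma evD2_coeff {n m : ℕ} {A : Par n} {b : GPar m} (hA : Tame S A) (hb : GTame S b)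
    {p : Nat.Primes} (hp : p ∉ S) (ρ : Rep2 n m) :
    (evD2 hA hb hp ρ).coeff = dv2 A b ρ p := by
  induction ρ using AddMonoidAlgebra.induction_linear with
  | zero =>
    rw [map_zero]
    unfold dv2
    simp
  | add x y hx hy =>
    rw [map_add, MonoidAlgebra.coeff_add, hx, hy]
    unfold dv2
    rw [AddMonoidAlgebra.coeff_add, Finsupp.mapDomain_add]
  | single w k =>
    rw [evD2_single]
    unfold dv2 pt
    rw [AddMonoidAlgebra.coeff_single, Finsupp.mapDomain_single, MonoidAlgebra.coeff_smul,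
      MonoidAlgebra.coeff_single, Finsupp.smul_single]
    simp

lemma evD2_inl {n m : ℕ} {A : Par n} {b : GPar m} (hA : Tame S A) (hb : GTame S b)
    {p : Nat.Primes} (hp : p ∉ S) (f : Rep n) :
    evD2 hA hb hp (inl2 n m f) = evD hA hp f := by
  induction f using AddMonoidAlgebra.induction_linear with
  | zero => simp
  | add x y hx hy => rw [map_add, map_add, map_add, hx, hy]
  | single w k =>
    rw [inl2_single, evD2_single, evD_single, gev_zero, mul_one]

/-- evaluation for `GL(m)` -/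
noncomputable def gD {m : ℕ} (b : GPar m) (p : Nat.Primes) (g : AddMonoidAlgebra ℤ (Fin m → ℤ)) :
    D := g.coeff.sum fun l k => k • pt (gev b p l)

lemma evD2_inr {n m : ℕ} {A : Par n} {b : GPar m} (hA : Tame S A) (hb : GTame S b)
    {p : Nat.Primes} (hp : p ∉ S) (g : AddMonoidAlgebra ℤ (Fin m → ℤ)) :
    evD2 hA hb hp (inr2 n m g) = gD b p g := by
  unfold gD
  induction g using AddMonoidAlgebra.induction_linear with
  | zero => simp
  | add x y hx hy =>
    rw [map_add, map_add, hx, hy, AddMonoidAlgebra.coeff_add, Finsupp.sum_add_index']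
    · intro l
      rw [zero_smul]
    · intro l k k'
      rw [add_smul]
  | single l k =>
    rw [inr2_single, evD2_single, AddMonoidAlgebra.coeff_single, Finsupp.sum_single_index
      (by rw [zero_smul]), ev_zero, one_mul]

lemma gD_dt {m : ℕ} (b : GPar m) (p : Nat.Primes) (k : ℤ) :
    gD b p (dt m k) = pt ((∏ j, b p j) ^ k) := by
  unfold gD dt
  rw [AddMonoidAlgebra.coeff_single, Finsupp.sum_single_index (by rw [zero_smul]), one_smul]
  unfold gev
  rw [Finset.prod_zpow]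

lemma evD2_ee {n m : ℕ} {A : Par n} {b : GPar m} (hA : Tame S A) (hb : GTame S b)
    {p : Nat.Primes} (hp : p ∉ S) (j : ℕ) :
    evD2 hA hb hp (inr2 n m (ee m j)) = gext b j p := by
  classical
  unfold ee gext
  rw [map_sum, map_sum]
  refine Finset.sum_congr rfl fun J _ => ?_
  rw [inr2_single, evD2_single, one_smul, ev_zero, one_mul]
  congr 1
  unfold gev
  rw [← Finset.prod_subset (Finset.subset_univ J)]
  · refine Finset.prod_congr rfl fun i hi => ?_
    simp only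
    rw [if_pos hi, zpow_one]
  · intro i _ hi
    simp only
    rw [if_neg hi, zpow_zero]

/-! ### The class of good families of divisors -/

/-- tame, and the L-function is a product of spin L-functions -/
def Good (S : Finset Nat.Primes) (𝒮 : ∀ n, Set (Par n)) (T : Nat.Primes → D) : Prop :=
  TDD S T ∧ SpinProduct S 𝒮 (LDD S T)

lemma Good.congr {T T' : Nat.Primes → D} (h : Good S 𝒮 T) (e : ∀ p, p ∉ S → T p = T' p) :
    Good S 𝒮 T' :=
  ⟨TDD.congr h.1 e, Q_congr h.2 (σ0 := 0) fun s _ => (LDD_congr e s).symm⟩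

lemma Good.zsmul {T : Nat.Primes → D} (h : Good S 𝒮 T) (k : ℤ) :
    Good S 𝒮 (fun p => k • T p) := by
  obtain ⟨σ, h1⟩ := LD_zsmul h.1 k
  refine ⟨?_, Q_congr (Q_zpow h.2 k) (σ0 := σ) fun s hs => ?_⟩
  · have := TD.zsmul h.1 k
    exact this
  · exact h1 s hs

lemma Good.finset_sum {ι : Type*} (F : Finset ι) {T : ι → Nat.Primes → D}
    (h : ∀ i ∈ F, Good S 𝒮 (T i)) : Good S 𝒮 (fun p => ∑ i ∈ F, T i p) := by
  obtain ⟨σ, h1⟩ := LD_finset_sum F fun i hi => (h i hi).1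
  refine ⟨TDD.finset_sum F fun i hi => (h i hi).1,
    Q_congr (Q_finset_prod F fun i hi => (h i hi).2) (σ0 := σ) fun s hs => ?_⟩
  have h2 := h1 s hs
  unfold LDD
  simp_rw [MonoidAlgebra.coeff_sum]
  exact h2

/-- the list of exterior powers -/
noncomputable def bl {m : ℕ} (b : GPar m) (J : List ℕ) : List ((Σ m, GPar m) × ℕ) :=
  J.map fun j => (⟨m, b⟩, j)

lemma GE_append (l l' : List ((Σ m, GPar m) × ℕ)) (p : Nat.Primes) :
    GE (l ++ l') p = GE l p * GE l' p := by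
  unfold GE
  rw [List.map_append, List.prod_append]

lemma GE_bl {m : ℕ} (b : GPar m) (J : List ℕ) (p : Nat.Primes) :
    GE (bl b J) p = (J.map fun j => gext b j p).prod := by
  unfold GE bl
  rw [List.map_map]
  rfl

/-- the basic family -/
lemma good_basic (hcl : IndClosed S 𝒮 𝒢) {n m : ℕ} {A : Par n} {b : GPar m}
    (h : Transfers2 𝒮 𝒢 A b) (ε : Bool) (c d : ℤ) (J J' : List ℕ) :
    Good S 𝒮 (fun p => (pt (A.simv p ^ c) * (if ε then spD A p else 1) * GE (bl A.std J) p) *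
      (pt ((∏ j, b p j) ^ d) * GE (bl b J') p)) := by
  obtain ⟨hb, hstd, htw⟩ := h
  have hmem : ∀ x ∈ bl A.std J ++ bl b J', x.1.2 ∈ 𝒢 x.1.1 := by
    intro x hx
    rcases List.mem_append.1 hx with hx | hx
    · obtain ⟨j, _, rfl⟩ := List.mem_map.1 hx
      exact hstd
    · obtain ⟨j, _, rfl⟩ := List.mem_map.1 hx
      exact hb
  by_cases hε : ε = true
  · have h1 := main_ind_all hcl _ hmem (by omega) hstd n _ (htw c d).1
    have h2 := (TDD_spD (hcl.tame n _ (htw c d).1)).mul (TDD_GE hcl.gtame hmem)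
    refine Good.congr ⟨h2, h1⟩ fun p _ => ?_
    simp only [hε, if_true]
    rw [GE_append]
    unfold spD tw cc
    simp only
    rw [← pt_mul, ← pt_mul]
    ring
  · have h1 := main_ind_all hcl _ hmem (by omega) hstd 0 _ (htw c d).2
    have h2 := (TDD_spD (hcl.tame 0 _ (htw c d).2)).mul (TDD_GE hcl.gtame hmem)
    refine Good.congr ⟨h2, h1⟩ fun p _ => ?_
    simp only [if_neg hε]
    rw [GE_append]
    unfold spD chr cc
    simp only [Finset.univ_eq_empty, Finset.prod_empty, mul_one]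
    rw [← pt_mul]
    ring

/-- **Main theorem for `GSp(2n) × GL(m)`.** -/
theorem main2 (hGL : StmGL) (hcl : IndClosed S 𝒮 𝒢) {n m : ℕ} {A : Par n} {b : GPar m}
    (h : Transfers2 𝒮 𝒢 A b) {ρ : Rep2 n m} (hρ : IsW2 ρ) :
    SpinProduct S 𝒮 (LS2 S A b ρ) ∧ ∃ σ : ℝ, AnalyticOnNhd ℂ (LS2 S A b ρ) {s : ℂ | σ < s.re} := by
  classical
  have hA : Tame S A := by
    have h1 := (h.2.2 0 0).1
    have h2 : tw A (cc A b 0 0) = A := by
      unfold tw cc
      simp
    rw [h2] at h1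
    exact hcl.tame n A h1
  have hb : GTame S b := hcl.gtame m b h.1
  refine ⟨?_, LS2_facts hA hb ρ⟩
  obtain ⟨r, f, g, hf, hg, hdec⟩ := dec hρ
  have key : ∀ k, Good S 𝒮 (fun p => if hp : p ∉ S then evD2 hA hb hp (inl2 n m (f k) * inr2 n m (g k))
      else 0) := by
    intro k
    obtain ⟨r1, c, ε, J, e, hE⟩ := Pool.Agent.V8H61.SP.stmRing n (f k) (hf k)
    obtain ⟨r2, d, J', e', hE'⟩ := hGL m (g k) (hg k)
    have h1 : Good S 𝒮 (fun p => ∑ i : Fin r1, ∑ j : Fin r2, (e i * e' j) •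
        ((pt (A.simv p ^ c i) * (if ε i then spD A p else 1) * GE (bl A.std (J i)) p) *
          (pt ((∏ l, b p l) ^ d j) * GE (bl b (J' j)) p))) :=
      Good.finset_sum _ fun i _ => Good.finset_sum _ fun j _ =>
        Good.zsmul (good_basic hcl h (ε i) (c i) (d j) (J i) (J' j)) _
    refine Good.congr h1 fun p hp => ?_
    rw [dif_pos hp]
    have h2 : evD2 hA hb hp (inl2 n m (f k)) = ∑ i, e i •
        (pt (A.simv p ^ c i) * (if ε i then spD A p else 1) * GE (bl A.std (J i)) p) := by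
      rw [evD2_inl, hE, map_sum]
      refine Finset.sum_congr rfl fun i _ => ?_
      rw [map_zsmul]
      congr 1
      rw [map_mul, map_mul, evD_sim, map_list_prod, GE_bl, List.map_map]
      congr 1
      · congr 1
        split_ifs
        · exact evD_spin hA hp
        · exact map_one _
      · congr 1
        refine List.map_congr_left fun j _ => ?_
        simp only [Function.comp]
        exact evD_ext hA hp j
    have h3 : evD2 hA hb hp (inr2 n m (g k)) = ∑ j, e' j •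
        (pt ((∏ l, b p l) ^ d j) * GE (bl b (J' j)) p) := by
      rw [hE', map_sum, map_sum]
      refine Finset.sum_congr rfl fun j _ => ?_
      rw [map_zsmul, map_zsmul]
      congr 1
      rw [map_mul, map_mul, evD2_inr hA hb hp (dt m (d j)), gD_dt, map_list_prod, map_list_prod,
        GE_bl, List.map_map, List.map_map]
      congr 2
      refine List.map_congr_left fun i _ => ?_
      simp only [Function.comp]
      exact evD2_ee hA hb hp i
    rw [map_mul, h2, h3, Finset.sum_mul_sum]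
    refine Finset.sum_congr rfl fun i _ => Finset.sum_congr rfl fun j _ => ?_
    rw [smul_mul_smul_comm]
  have h4 : Good S 𝒮 (fun p => ∑ k, if hp : p ∉ S then
      evD2 hA hb hp (inl2 n m (f k) * inr2 n m (g k)) else 0) :=
    Good.finset_sum _ fun k _ => key k
  obtain ⟨_, σ, h5⟩ := LS2_eq_LD hA hb ρ
  refine Q_congr h4.2 (σ0 := σ) fun s hs => ?_
  rw [h5 s hs]
  refine LD_congr (fun p hp => ?_) s
  rw [← evD2_coeff hA hb hp, hdec, map_sum]
  simp only [dif_pos hp]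

/-- **Continuation for `GSp(2n) × GL(m)`.** -/
theorem main2_cont (hGL : StmGL) (hcl : IndClosed S 𝒮 𝒢)
    (hc : ∀ N, 1 ≤ N → ∀ B ∈ 𝒮 N, Continues (LS S B (spin N))) {n m : ℕ} {A : Par n}
    {b : GPar m} (h : Transfers2 𝒮 𝒢 A b) {ρ : Rep2 n m} (hρ : IsW2 ρ) :
    Continues (LS2 S A b ρ) :=
  continues_of_spinProduct hc (main2 hGL hcl h hρ).2 (main2 hGL hcl h hρ).1

end Pool.Agent.V8H25.SP
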